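import Mathlib

/-!
Definitions for the question on `K_t`-free jumbled graphs (MP_fce80c_co).
-/

namespace Pool.Agent.FCE

/-- The number of ordered pairs `(x, y)` with `x ∈ X`, `y ∈ Y` and `x y` an edge of `G`. -/
noncomputable def edgeCount {V : Type} (G : SimpleGraph V) (X Y : Finset V) : ℕ :=
  Nat.card {e : V × V // e.1 ∈ X ∧ e.2 ∈ Y ∧ G.Adj e.1 e.2}

/-- `G` is `(p, β)`-jumbled: `|e(X, Y) - p |X| |Y|| ≤ β √(|X| |Y|)` for all `X, Y ⊆ V`. -/
def Jumbled {V : Type} (G : SimpleGraph V) (p β : ℝ) : Prop :=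
  ∀ X Y : Finset V, |(edgeCount G X Y : ℝ) - p * (X.card : ℝ) * (Y.card : ℝ)| ≤
    β * Real.sqrt ((X.card : ℝ) * (Y.card : ℝ))

/-- The exponent `s` is attained for `K_t`: there are a constant `C > 0`, an infinite set `N` of
natural numbers and a function `p` with `p n → 0`, such that for every `n ∈ N` one has
`0 < p n ≤ 1` and there is a `K_t`-free graph on `n` vertices which is `(p n, β)`-jumbled for
some `β > 0` with `β ≤ C (p n) ^ s n`. -/
def Attained (t : ℕ) (s : ℝ) : Prop :=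
  ∃ C : ℝ, 0 < C ∧ ∃ N : Set ℕ, N.Infinite ∧ ∃ p : ℕ → ℝ,
    Filter.Tendsto p Filter.atTop (nhds 0) ∧
    ∀ n ∈ N, 0 < p n ∧ p n ≤ 1 ∧
      ∃ (V : Type) (_ : Fintype V) (G : SimpleGraph V) (β : ℝ),
        Fintype.card V = n ∧ G.CliqueFree t ∧ 0 < β ∧ β ≤ C * (p n) ^ s * (n : ℝ) ∧
        Jumbled G (p n) β

end Pool.Agent.FCE
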