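import Mathlib
import Pool.Agent.FCE.Defs

namespace Pool.Agent.FCE

open Finset

/-- Passing from an `ε`, `n₀` form to the form with an infinite set and a function `p`. -/
theorem attained_of {t : ℕ} {s C : ℝ} (hC : 0 < C)
    (h : ∀ (ε : ℝ), 0 < ε → ∀ n₀ : ℕ, ∃ (n : ℕ) (p : ℝ), n₀ ≤ n ∧ 0 < p ∧ p ≤ 1 ∧ p < ε ∧
      ∃ (V : Type) (_ : Fintype V) (G : SimpleGraph V) (β : ℝ),
        Fintype.card V = n ∧ G.CliqueFree t ∧ 0 < β ∧ β ≤ C * p ^ s * (n : ℝ) ∧
        Jumbled G p β) : Attained t s := by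
  classical
  have h' : ∀ k : ℕ, ∃ (n : ℕ) (p : ℝ), k ≤ n ∧ 0 < p ∧ p ≤ 1 ∧ p < 1 / ((k : ℝ) + 1) ∧
      ∃ (V : Type) (_ : Fintype V) (G : SimpleGraph V) (β : ℝ),
        Fintype.card V = n ∧ G.CliqueFree t ∧ 0 < β ∧ β ≤ C * p ^ s * (n : ℝ) ∧
        Jumbled G p β := by
    intro k
    exact h _ (by positivity) k
  choose n p hn hp0 hp1 hpk hG using h'
  refine ⟨C, hC, Set.range n, ?_, fun m => if hm : ∃ k, n k = m then p hm.choose else 0, ?_, ?_⟩
  · rw [Set.infinite_iff_exists_gt]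
    intro a
    exact ⟨n (a + 1), ⟨a + 1, rfl⟩, lt_of_lt_of_le (Nat.lt_succ_self a) (hn (a + 1))⟩
  · rw [Metric.tendsto_atTop]
    intro ε hε
    obtain ⟨K, hK⟩ := exists_nat_one_div_lt hε
    refine ⟨(∑ k ∈ range K, n k) + 1, ?_⟩
    intro m hm
    by_cases hm' : ∃ k, n k = m
    · rw [dif_pos hm']
      set k := hm'.choose with hk
      have hkm : n k = m := hm'.choose_spec
      have hKk : K ≤ k := by
        by_contra hlt
        push Not at hlt
        have h1 : n k ≤ ∑ k ∈ range K, n k :=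
          single_le_sum (f := fun k => n k) (fun i _ => Nat.zero_le _) (mem_range.2 hlt)
        omega
      rw [Real.dist_eq, sub_zero, abs_of_pos (hp0 k)]
      have h2 : (1 : ℝ) / ((k : ℝ) + 1) ≤ 1 / ((K : ℝ) + 1) := by
        apply one_div_le_one_div_of_le (by positivity)
        have : (K : ℝ) ≤ k := by exact_mod_cast hKk
        linarith
      linarith [hpk k]
    · rw [dif_neg hm']
      simpa using hε
  · rintro m ⟨k0, hk0⟩
    have hm' : ∃ k, n k = m := ⟨k0, hk0⟩
    beta_reduce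
    rw [dif_pos hm']
    set k := hm'.choose with hk
    have hkm : n k = m := hm'.choose_spec
    refine ⟨hp0 k, hp1 k, ?_⟩
    have := hG k
    rw [hkm] at this
    exact this

/-- Deviation bound for one `0/1` relation with constant out-degree `d` and small codegrees. -/
theorem dev_one {V : Type*} [Fintype V] [DecidableEq V] (f : V → V → ℝ) (d : ℝ)
    (hf : ∀ u v, f u v = 0 ∨ f u v = 1) (hdeg : ∀ u, ∑ v, f u v = d)
    (hcod : ∀ u u', u ≠ u' → ∑ v, f u v * f u' v ≤ d ^ 2 / (Fintype.card V : ℝ))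
    (X Y : Finset V) :
    |∑ u ∈ X, ∑ v ∈ Y, f u v - d / (Fintype.card V : ℝ) * (X.card : ℝ) * (Y.card : ℝ)| ≤
      Real.sqrt d * Real.sqrt ((X.card : ℝ) * (Y.card : ℝ)) := by
  classical
  rcases isEmpty_or_nonempty V with hV | hV
  · have hX : X = ∅ := Finset.eq_empty_of_isEmpty X
    subst hX
    simp
  set n : ℝ := (Fintype.card V : ℝ) with hn
  have hnpos : 0 < n := by
    rw [hn]; exact_mod_cast Fintype.card_pos
  have hd0 : 0 ≤ d := by
    obtain ⟨u⟩ := hV
    rw [← hdeg u]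
    apply Finset.sum_nonneg
    intro v _
    rcases hf u v with h | h <;> rw [h]
    norm_num
  set g : V → ℝ := fun v => ∑ u ∈ X, f u v - d / n * (X.card : ℝ) with hg
  have h1 : ∑ u ∈ X, ∑ v ∈ Y, f u v - d / n * (X.card : ℝ) * (Y.card : ℝ) = ∑ v ∈ Y, g v := by
    rw [hg, Finset.sum_sub_distrib, Finset.sum_comm, Finset.sum_const, nsmul_eq_mul]
    ring
  have h2 : ∑ v, g v ^ 2 ≤ d * (X.card : ℝ) := by
    have e1 : ∀ v, g v ^ 2 = ∑ u ∈ X, ∑ u' ∈ X, f u v * f u' v
        - 2 * (d / n) * (X.card : ℝ) * ∑ u ∈ X, f u v + (d / n) ^ 2 * (X.card : ℝ) ^ 2 := by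
      intro v
      rw [hg]
      have : ∑ u ∈ X, ∑ u' ∈ X, f u v * f u' v = (∑ u ∈ X, f u v) * (∑ u ∈ X, f u v) := by
        rw [Finset.sum_mul_sum]
      simp only [this]
      ring
    simp_rw [e1]
    rw [Finset.sum_add_distrib, Finset.sum_sub_distrib, ← Finset.mul_sum, Finset.sum_const,
      nsmul_eq_mul, Finset.card_univ]
    have e2 : ∑ v, ∑ u ∈ X, f u v = d * (X.card : ℝ) := by
      rw [Finset.sum_comm]
      simp_rw [hdeg]
      rw [Finset.sum_const, nsmul_eq_mul]
      ring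
    have e3 : ∑ v, ∑ u ∈ X, ∑ u' ∈ X, f u v * f u' v
        ≤ d * (X.card : ℝ) + d ^ 2 / n * (X.card : ℝ) ^ 2 := by
      rw [Finset.sum_comm]
      have e4 : ∀ u ∈ X, ∑ v, ∑ u' ∈ X, f u v * f u' v ≤ d + d ^ 2 / n * (X.card : ℝ) := by
        intro u hu
        rw [Finset.sum_comm]
        have e5 : ∀ u' ∈ X, ∑ v, f u v * f u' v ≤ (if u' = u then d else 0) + d ^ 2 / n := by
          intro u' _
          split_ifs with huu
          · subst huu
            have : ∑ v, f u' v * f u' v = d := by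
              rw [← hdeg u']
              apply Finset.sum_congr rfl
              intro v _
              rcases hf u' v with h | h <;> rw [h] <;> ring
            rw [this]
            have : 0 ≤ d ^ 2 / n := by positivity
            linarith
          · rw [zero_add]
            exact hcod u u' (fun h => huu h.symm)
        refine (Finset.sum_le_sum e5).trans ?_
        rw [Finset.sum_add_distrib, Finset.sum_ite_eq' X u, if_pos hu, Finset.sum_const,
          nsmul_eq_mul]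
        linarith
      refine (Finset.sum_le_sum e4).trans ?_
      rw [Finset.sum_const, nsmul_eq_mul]
      apply le_of_eq
      ring
    rw [e2]
    have e6 : n * ((d / n) ^ 2 * (X.card : ℝ) ^ 2) = d ^ 2 / n * (X.card : ℝ) ^ 2 := by
      field_simp
    have e7 : 2 * (d / n) * (X.card : ℝ) * (d * (X.card : ℝ))
        = 2 * (d ^ 2 / n * (X.card : ℝ) ^ 2) := by
      field_simp
    rw [← hn, e6, e7]
    linarith
  rw [h1]
  have h3 : (∑ v ∈ Y, g v) ^ 2 ≤ (Y.card : ℝ) * (d * (X.card : ℝ)) := by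
    refine (sq_sum_le_card_mul_sum_sq (s := Y) (f := g)).trans ?_
    apply mul_le_mul_of_nonneg_left _ (by positivity)
    refine le_trans ?_ h2
    apply Finset.sum_le_sum_of_subset_of_nonneg (Finset.subset_univ Y)
    intro v _ _
    positivity
  rw [← Real.sqrt_mul hd0]
  apply Real.abs_le_sqrt
  refine h3.trans (le_of_eq ?_)
  ring

/-- Deviation bound for a family of relations indexed by the values of a function. -/
theorem dev_family {V K : Type*} [Fintype V] [DecidableEq V] [DecidableEq K]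
    (x : V → V → K) (S : Finset K) (d : ℝ)
    (hdeg : ∀ y ∈ S, ∀ u, ∑ v, (if x u v = y then (1 : ℝ) else 0) = d)
    (hcod : ∀ y ∈ S, ∀ u u', u ≠ u' →
      ∑ v, (if x u v = y then (1 : ℝ) else 0) * (if x u' v = y then (1 : ℝ) else 0)
        ≤ d ^ 2 / (Fintype.card V : ℝ))
    (X Y : Finset V) :
    |∑ u ∈ X, ∑ v ∈ Y, (if x u v ∈ S then (1 : ℝ) else 0)
        - ((S.card : ℝ) * (d / (Fintype.card V : ℝ))) * (X.card : ℝ) * (Y.card : ℝ)| ≤
      ((S.card : ℝ) * Real.sqrt d) * Real.sqrt ((X.card : ℝ) * (Y.card : ℝ)) := by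
  classical
  have h1 : ∀ u v, (if x u v ∈ S then (1 : ℝ) else 0) = ∑ y ∈ S, if x u v = y then (1 : ℝ) else 0 := by
    intro u v
    rw [Finset.sum_ite_eq]
  have h2 : ∑ u ∈ X, ∑ v ∈ Y, (if x u v ∈ S then (1 : ℝ) else 0)
      = ∑ y ∈ S, ∑ u ∈ X, ∑ v ∈ Y, if x u v = y then (1 : ℝ) else 0 := by
    simp_rw [h1]
    rw [Finset.sum_comm (s := S) (t := X)]
    apply Finset.sum_congr rfl
    intro u _
    rw [Finset.sum_comm]
  have h3 : ∑ u ∈ X, ∑ v ∈ Y, (if x u v ∈ S then (1 : ℝ) else 0)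
        - ((S.card : ℝ) * (d / (Fintype.card V : ℝ))) * (X.card : ℝ) * (Y.card : ℝ)
      = ∑ y ∈ S, (∑ u ∈ X, ∑ v ∈ Y, (if x u v = y then (1 : ℝ) else 0)
        - d / (Fintype.card V : ℝ) * (X.card : ℝ) * (Y.card : ℝ)) := by
    rw [h2, Finset.sum_sub_distrib, Finset.sum_const, nsmul_eq_mul]
    ring
  rw [h3]
  refine (Finset.abs_sum_le_sum_abs _ _).trans ?_
  have h4 : ∀ y ∈ S, |∑ u ∈ X, ∑ v ∈ Y, (if x u v = y then (1 : ℝ) else 0)
        - d / (Fintype.card V : ℝ) * (X.card : ℝ) * (Y.card : ℝ)|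
      ≤ Real.sqrt d * Real.sqrt ((X.card : ℝ) * (Y.card : ℝ)) := by
    intro y hy
    apply dev_one (fun u v => if x u v = y then (1 : ℝ) else 0) d
    · intro u v
      by_cases h : x u v = y <;> simp [h]
    · exact hdeg y hy
    · exact hcod y hy
  refine (Finset.sum_le_sum h4).trans ?_
  rw [Finset.sum_const, nsmul_eq_mul]
  apply le_of_eq
  ring

/-- The graph on `V` whose edges are the pairs `u, v` with `x u v ∈ S`. -/
def relGraph {V K : Type*} (x : V → V → K) (S : Finset K)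
    (hsymm : ∀ u v, x u v ∈ S → x v u ∈ S) (hirr : ∀ u, x u u ∉ S) : SimpleGraph V where
  Adj u v := x u v ∈ S
  symm := ⟨fun u v h => hsymm u v h⟩
  loopless := ⟨fun u h => hirr u h⟩

theorem relGraph_jumbled {V : Type} {K : Type*} [Fintype V] [DecidableEq V] [DecidableEq K]
    (x : V → V → K) (S : Finset K)
    (hsymm : ∀ u v, x u v ∈ S → x v u ∈ S) (hirr : ∀ u, x u u ∉ S) (d : ℝ)
    (hdeg : ∀ y ∈ S, ∀ u, ∑ v, (if x u v = y then (1 : ℝ) else 0) = d)
    (hcod : ∀ y ∈ S, ∀ u u', u ≠ u' →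
      ∑ v, (if x u v = y then (1 : ℝ) else 0) * (if x u' v = y then (1 : ℝ) else 0)
        ≤ d ^ 2 / (Fintype.card V : ℝ)) :
    Jumbled (relGraph x S hsymm hirr) ((S.card : ℝ) * (d / (Fintype.card V : ℝ)))
      ((S.card : ℝ) * Real.sqrt d) := by
  intro X Y
  have h := dev_family x S d hdeg hcod X Y
  have he : (edgeCount (relGraph x S hsymm hirr) X Y : ℝ)
      = ∑ u ∈ X, ∑ v ∈ Y, (if x u v ∈ S then (1 : ℝ) else 0) := by
    have e1 : edgeCount (relGraph x S hsymm hirr) X Y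
        = ((X ×ˢ Y).filter (fun e => x e.1 e.2 ∈ S)).card := by
      unfold edgeCount
      apply Nat.subtype_card
      rintro ⟨a, b⟩
      simp only [mem_filter, mem_product, relGraph]
      tauto
    rw [e1, ← Finset.sum_product', Finset.sum_boole]
  rw [he]
  exact h

/-- If `Y = q E + B C` with inner dimension `r`, then `q ^ (m - r)` divides `det Y`. -/
theorem pow_dvd_det {ι κ : Type*} [Fintype ι] [DecidableEq ι] [Fintype κ] [DecidableEq κ]
    (q : ℤ) (hq : q ≠ 0) (E : Matrix ι ι ℤ) (B : Matrix ι κ ℤ) (C : Matrix κ ι ℤ) (c : ℕ)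
    (hc : Fintype.card κ + c = Fintype.card ι) :
    q ^ c ∣ (q • E + B * C).det := by
  have h1 : (q • E + B * C).det = (Matrix.fromBlocks (q • E) (-B) C 1).det := by
    rw [Matrix.det_fromBlocks_one₂₂]
    congr 1
    rw [Matrix.neg_mul, sub_neg_eq_add]
  have h2 : Matrix.fromBlocks (q • E) (-B) C 1
        * Matrix.fromBlocks (1 : Matrix ι ι ℤ) 0 0 (q • (1 : Matrix κ κ ℤ))
      = Matrix.fromBlocks (q • (1 : Matrix ι ι ℤ)) 0 0 (1 : Matrix κ κ ℤ)
        * Matrix.fromBlocks E (-B) C (q • (1 : Matrix κ κ ℤ)) := by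
    rw [Matrix.fromBlocks_multiply, Matrix.fromBlocks_multiply]
    simp only [Matrix.mul_one, Matrix.mul_zero, Matrix.zero_mul, Matrix.one_mul, Matrix.mul_smul,
      Matrix.smul_mul, add_zero, zero_add, smul_zero]
  have h3 := congrArg Matrix.det h2
  rw [Matrix.det_mul, Matrix.det_mul, Matrix.det_fromBlocks_zero₂₁, Matrix.det_fromBlocks_zero₂₁,
    Matrix.det_smul, Matrix.det_smul] at h3
  simp only [Matrix.det_one, mul_one, one_mul] at h3
  rw [← h1, ← hc, pow_add] at h3
  have h4 : (q • E + B * C).det = q ^ c * (Matrix.fromBlocks E (-B) C (q • (1 : Matrix κ κ ℤ))).det := by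
    have hqk : q ^ Fintype.card κ ≠ 0 := pow_ne_zero _ hq
    apply mul_right_cancel₀ hqk
    rw [h3]
    ring
  exact ⟨_, h4⟩

/-- An integer matrix of even size with zero diagonal and odd off-diagonal entries is
nonsingular. -/
theorem det_ne_zero_of_odd {ι : Type*} [Fintype ι] [DecidableEq ι] (hι : Even (Fintype.card ι))
    (Y : Matrix ι ι ℤ) (h0 : ∀ i, Y i i = 0) (h1 : ∀ i j, i ≠ j → Odd (Y i j)) : Y.det ≠ 0 := by
  classical
  intro hdet
  set Z : Matrix ι ι (ZMod 2) := (Int.castRingHom (ZMod 2)).mapMatrix Y with hZ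
  have hZe : ∀ i j, Z i j = if i = j then 0 else 1 := by
    intro i j
    rw [hZ, RingHom.mapMatrix_apply, Matrix.map_apply]
    split_ifs with hij
    · subst hij
      rw [h0]
      simp
    · have := h1 i j hij
      rw [eq_intCast, ZMod.intCast_eq_one_iff_odd] 
      exact this
  have hdet2 : Z.det = 0 := by
    rw [hZ, ← RingHom.map_det, hdet, map_zero]
  have hsq : Z * Z = 1 := by
    have hm : ((Fintype.card ι : ℕ) : ZMod 2) = 0 := (ZMod.natCast_eq_zero_iff_even).2 hι
    ext i j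
    rw [Matrix.mul_apply, Matrix.one_apply]
    have e1 : ∀ l, Z i l * Z l j = 1 - (if i = l then (1 : ZMod 2) else 0)
        - (if l = j then (1 : ZMod 2) else 0)
        + (if i = l then (if l = j then (1 : ZMod 2) else 0) else 0) := by
      intro l
      rw [hZe, hZe]
      split_ifs <;> ring
    simp_rw [e1]
    rw [Finset.sum_add_distrib, Finset.sum_sub_distrib, Finset.sum_sub_distrib,
      Finset.sum_const, Finset.card_univ, Finset.sum_ite_eq, Finset.sum_ite_eq,
      Finset.sum_ite_eq', nsmul_eq_mul, hm]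
    simp only [Finset.mem_univ, if_true]
    have h2 : (1 : ZMod 2) + 1 = 0 := by decide
    have h3 : (0 : ZMod 2) * 1 - 1 - 1 = 0 := by decide
    rw [h3, zero_add]
  have := congrArg Matrix.det hsq
  rw [Matrix.det_mul, hdet2, Matrix.det_one, mul_zero] at this
  exact zero_ne_one this

end Pool.Agent.FCE
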