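import Mathlib
import Pool.Agent.FCE.Core

namespace Pool.Agent.FCE

open Finset

/-- The antisymmetric function on `K × K × K` defining the Heisenberg-type graph. -/
def hx {K : Type*} [Field K] (u v : K × K × K) : K :=
  u.1 * v.2.1 - u.2.1 * v.1 + u.2.2 - v.2.2

theorem hx_deg {K : Type*} [Field K] [Fintype K] [DecidableEq K] (u : K × K × K) (y : K) :
    ∑ v : K × K × K, (if hx u v = y then (1 : ℝ) else 0) = (Fintype.card K : ℝ) ^ 2 := by
  rw [Fintype.sum_prod_type]
  have h1 : ∀ a : K, ∑ w : K × K, (if hx u (a, w) = y then (1 : ℝ) else 0)
      = (Fintype.card K : ℝ) := by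
    intro a
    rw [Fintype.sum_prod_type]
    have h2 : ∀ b : K, ∑ c : K, (if hx u (a, (b, c)) = y then (1 : ℝ) else 0)
        = 1 := by
      intro b
      have h3 : ∀ c : K, (hx u (a, (b, c)) = y) ↔
          (c = u.1 * b - u.2.1 * a + u.2.2 - y) := by
        intro c
        unfold hx
        constructor
        · intro h; rw [← h]; ring
        · intro h; rw [h]; ring
      simp_rw [h3]
      rw [Finset.sum_ite_eq']
      simp
    simp_rw [h2]
    simp
  simp_rw [h1]
  rw [Finset.sum_const, Finset.card_univ, nsmul_eq_mul]
  ring

/-- The number of solutions of a nontrivial affine linear equation in two variables. -/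
theorem lin_two {K : Type*} [Field K] [Fintype K] [DecidableEq K] (α β γ : K)
    (h : ¬ (α = 0 ∧ β = 0 ∧ γ = 0)) :
    ∑ a : K, ∑ b : K, (if α * b - β * a + γ = 0 then (1 : ℝ) else 0) ≤ (Fintype.card K : ℝ) := by
  by_cases hα : α = 0
  · by_cases hβ : β = 0
    · have hγ : γ ≠ 0 := fun hγ => h ⟨hα, hβ, hγ⟩
      subst hα hβ
      simp [hγ]
    · rw [Finset.sum_comm]
      have h1 : ∀ b : K, ∑ a : K, (if α * b - β * a + γ = 0 then (1 : ℝ) else 0) = 1 := by
        intro b
        have h3 : ∀ a : K, (α * b - β * a + γ = 0) ↔ (a = β⁻¹ * (α * b + γ)) := by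
          intro a
          constructor
          · intro h
            have : β * a = α * b + γ := by linear_combination -h
            rw [← this]
            field_simp
          · intro h
            rw [h]
            field_simp
            ring
        simp_rw [h3]
        rw [Finset.sum_ite_eq']
        simp
      simp_rw [h1]
      simp
  · have h1 : ∀ a : K, ∑ b : K, (if α * b - β * a + γ = 0 then (1 : ℝ) else 0) = 1 := by
      intro a
      have h3 : ∀ b : K, (α * b - β * a + γ = 0) ↔ (b = α⁻¹ * (β * a - γ)) := by
        intro b
        constructor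
        · intro h
          have : α * b = β * a - γ := by linear_combination h
          rw [← this]
          field_simp
        · intro h
          rw [h]
          field_simp
          ring
      simp_rw [h3]
      rw [Finset.sum_ite_eq']
      simp
    simp_rw [h1]
    simp

theorem hx_codeg {K : Type*} [Field K] [Fintype K] [DecidableEq K] (u u' : K × K × K)
    (huu : u ≠ u') (y : K) :
    ∑ v : K × K × K, (if hx u v = y then (1 : ℝ) else 0) * (if hx u' v = y then (1 : ℝ) else 0)
      ≤ (Fintype.card K : ℝ) := by
  obtain ⟨A, B, S⟩ := u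
  obtain ⟨A', B', S'⟩ := u'
  rw [Fintype.sum_prod_type]
  have h1 : ∀ a : K, ∑ w : K × K,
      (if hx (A, B, S) (a, w) = y then (1 : ℝ) else 0)
        * (if hx (A', B', S') (a, w) = y then (1 : ℝ) else 0)
      = ∑ b : K, (if (A - A') * b - (B - B') * a + (S - S') = 0 then (1 : ℝ) else 0) := by
    intro a
    rw [Fintype.sum_prod_type]
    apply Finset.sum_congr rfl
    intro b _
    have h3 : ∀ c : K, (if hx (A, B, S) (a, (b, c)) = y then (1 : ℝ) else 0)
        * (if hx (A', B', S') (a, (b, c)) = y then (1 : ℝ) else 0)
        = if c = A * b - B * a + S - y then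
          (if (A - A') * b - (B - B') * a + (S - S') = 0 then (1 : ℝ) else 0) else 0 := by
      intro c
      by_cases hc : c = A * b - B * a + S - y
      · have e1 : hx (A, B, S) (a, (b, c)) = y := by
          unfold hx
          rw [hc]
          ring
        rw [if_pos hc, if_pos e1, one_mul]
        have e2 : (hx (A', B', S') (a, (b, c)) = y) ↔
            ((A - A') * b - (B - B') * a + (S - S') = 0) := by
          unfold hx
          rw [hc]
          constructor
          · intro h; linear_combination -h
          · intro h; linear_combination -h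
        simp only [e2]
      · have e1 : ¬ (hx (A, B, S) (a, (b, c)) = y) := by
          intro h
          apply hc
          rw [← h]
          unfold hx
          ring
        rw [if_neg hc, if_neg e1, zero_mul]
    simp_rw [h3]
    rw [Finset.sum_ite_eq']
    simp
  simp_rw [h1]
  apply lin_two
  rintro ⟨e1, e2, e3⟩
  apply huu
  rw [sub_eq_zero.1 e1, sub_eq_zero.1 e2, sub_eq_zero.1 e3]

end Pool.Agent.FCE
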