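import Mathlib
import Pool.Agent.FCE.Core

namespace Pool.Agent.FCE

open Finset

/-- The main determinant inequality: an integer matrix of even size with zero diagonal and odd
off-diagonal entries which modulo `q` factors through dimension `m - c` has a determinant of
absolute value at least `q ^ c`. -/
theorem det_ineq {ι κ : Type*} [Fintype ι] [DecidableEq ι] [Fintype κ] [DecidableEq κ]
    (q : ℕ) (hq : q ≠ 0) (hι : Even (Fintype.card ι)) (Y : Matrix ι ι ℤ)
    (h0 : ∀ i, Y i i = 0) (h1 : ∀ i j, i ≠ j → Odd (Y i j))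
    (B : Matrix ι κ ℤ) (C : Matrix κ ι ℤ) (c : ℕ)
    (hc : Fintype.card κ + c = Fintype.card ι)
    (hmod : ∀ i j, ((Y i j : ℤ) : ZMod q) = (((B * C) i j : ℤ) : ZMod q))
    (d : ι → ℤ) (M : ℤ) (hM : ∀ i j, |d i * Y i j * d j| ≤ M) :
    (q : ℤ) ^ c * (∏ i, d i) ^ 2 ≤ ((Fintype.card ι).factorial : ℤ) * M ^ (Fintype.card ι) := by
  classical
  have hdiv : ∀ i j, ∃ e : ℤ, Y i j = q * e + (B * C) i j := by
    intro i j
    have h := (ZMod.intCast_eq_intCast_iff_dvd_sub _ _ _).1 (hmod i j).symm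
    obtain ⟨e, he⟩ := h
    exact ⟨e, by linarith⟩
  choose E hE using hdiv
  have hY : Y = (q : ℤ) • (Matrix.of E) + B * C := by
    ext i j
    rw [Matrix.add_apply, Matrix.smul_apply, Matrix.of_apply, smul_eq_mul]
    exact hE i j
  have hqz : (q : ℤ) ≠ 0 := by exact_mod_cast hq
  have hdvd : (q : ℤ) ^ c ∣ Y.det := by
    rw [hY]
    exact pow_dvd_det (q : ℤ) hqz _ B C c hc
  have hne : Y.det ≠ 0 := det_ne_zero_of_odd hι Y h0 h1
  have hle : (q : ℤ) ^ c ≤ |Y.det| := by
    apply Int.le_of_dvd (abs_pos.2 hne)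
    exact (dvd_abs _ _).2 hdvd
  have hdet2 : (Matrix.diagonal d * Y * Matrix.diagonal d).det = (∏ i, d i) ^ 2 * Y.det := by
    rw [Matrix.det_mul, Matrix.det_mul, Matrix.det_diagonal]
    ring
  have hb := Matrix.det_le (A := Matrix.diagonal d * Y * Matrix.diagonal d)
    (abv := AbsoluteValue.abs) (x := M) (by
      intro i j
      rw [Matrix.mul_diagonal, Matrix.diagonal_mul]
      exact hM i j)
  rw [hdet2] at hb
  have hb' : |(∏ i, d i) ^ 2 * Y.det| ≤ ((Fintype.card ι).factorial : ℤ) * M ^ (Fintype.card ι) := by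
    have := hb
    rw [nsmul_eq_mul] at this
    exact this
  refine le_trans ?_ hb'
  rw [abs_mul, abs_of_nonneg (by positivity : (0 : ℤ) ≤ (∏ i, d i) ^ 2), mul_comm]
  exact mul_le_mul_of_nonneg_left hle (by positivity)

/-- The set of residues of the odd integers of absolute value less than `2 w`. -/
def oddSet (q w : ℕ) : Finset (ZMod q) :=
  (range w).image (fun j => ((2 * j + 1 : ℕ) : ZMod q)) ∪
    (range w).image (fun j => -((2 * j + 1 : ℕ) : ZMod q))

theorem oddSet_lift {q w : ℕ} {y : ZMod q} (hy : y ∈ oddSet q w) :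
    ∃ k : ℤ, Odd k ∧ |k| ≤ 2 * (w : ℤ) ∧ (k : ZMod q) = y := by
  rw [oddSet, mem_union, mem_image, mem_image] at hy
  rcases hy with ⟨j, hj, rfl⟩ | ⟨j, hj, rfl⟩
  · rw [mem_range] at hj
    refine ⟨2 * (j : ℤ) + 1, ⟨j, rfl⟩, ?_, by push_cast; rfl⟩
    rw [abs_of_nonneg (by positivity)]
    have : (j : ℤ) + 1 ≤ w := by exact_mod_cast hj
    linarith
  · rw [mem_range] at hj
    refine ⟨-(2 * (j : ℤ) + 1), Odd.neg ⟨j, rfl⟩, ?_, by push_cast; ring⟩
    rw [abs_neg, abs_of_nonneg (by positivity)]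
    have : (j : ℤ) + 1 ≤ w := by exact_mod_cast hj
    linarith

theorem oddSet_neg {q w : ℕ} {y : ZMod q} (hy : y ∈ oddSet q w) : -y ∈ oddSet q w := by
  rw [oddSet, mem_union, mem_image, mem_image] at hy ⊢
  rcases hy with ⟨j, hj, rfl⟩ | ⟨j, hj, rfl⟩
  · exact Or.inr ⟨j, hj, rfl⟩
  · exact Or.inl ⟨j, hj, by rw [neg_neg]⟩

theorem oddSet_zero {q w : ℕ} (hw : 2 * w ≤ q) : (0 : ZMod q) ∉ oddSet q w := by
  intro hy
  have key : ∀ j, j < w → ((2 * j + 1 : ℕ) : ZMod q) ≠ 0 := by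
    intro j hj h
    rw [ZMod.natCast_eq_zero_iff] at h
    have := Nat.le_of_dvd (by omega) h
    omega
  rw [oddSet, mem_union, mem_image, mem_image] at hy
  rcases hy with ⟨j, hj, h⟩ | ⟨j, hj, h⟩
  · exact key j (mem_range.1 hj) h
  · exact key j (mem_range.1 hj) (neg_eq_zero.1 h)

theorem oddSet_card_le (q w : ℕ) : (oddSet q w).card ≤ 2 * w := by
  rw [oddSet]
  refine (card_union_le _ _).trans ?_
  have h1 := card_image_le (s := range w) (f := fun j => ((2 * j + 1 : ℕ) : ZMod q))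
  have h2 := card_image_le (s := range w) (f := fun j => -((2 * j + 1 : ℕ) : ZMod q))
  rw [card_range] at h1 h2
  omega

theorem le_oddSet_card {q w : ℕ} (hw : 2 * w ≤ q) : w ≤ (oddSet q w).card := by
  rw [oddSet]
  have h1 : ((range w).image (fun j => ((2 * j + 1 : ℕ) : ZMod q))).card = w := by
    rw [card_image_of_injOn, card_range]
    intro i hi j hj hij
    rw [coe_range, Set.mem_Iio] at hi hj
    have hij' : ((2 * i + 1 : ℕ) : ZMod q) = ((2 * j + 1 : ℕ) : ZMod q) := hij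
    rw [ZMod.natCast_eq_natCast_iff, Nat.ModEq, Nat.mod_eq_of_lt (by omega),
      Nat.mod_eq_of_lt (by omega)] at hij'
    omega
  calc w = ((range w).image (fun j => ((2 * j + 1 : ℕ) : ZMod q))).card := h1.symm
    _ ≤ _ := card_le_card subset_union_left

end Pool.Agent.FCE
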