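import Mathlib
import Pool.Agent.FCE.Heis
import Pool.Agent.FCE.Parity

namespace Pool.Agent.FCE

open Finset

theorem hx_self {K : Type*} [Field K] (u : K × K × K) : hx u u = 0 := by
  unfold hx; ring

theorem hx_antisymm {K : Type*} [Field K] (u v : K × K × K) : hx v u = -hx u v := by
  unfold hx; ring

/-- If `t` points have pairwise values `hx` in the odd set, then `q ^ (t - 3)` is small. -/
theorem heis_clique_ineq {q : ℕ} [Fact q.Prime] {t w : ℕ} (ht : Odd t) (ht3 : 3 ≤ t) (hw : 1 ≤ w)
    (f : Fin t → ZMod q × ZMod q × ZMod q)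
    (hf : ∀ i j, i ≠ j → hx (f i) (f j) ∈ oddSet q w) :
    q ^ (t - 3) ≤ (t + 1).factorial * (2 * w) ^ (t - 1) := by
  classical
  have hlift : ∀ i j, ∃ k : ℤ, (i = j → k = 0) ∧ (i ≠ j → Odd k) ∧ |k| ≤ 2 * (w : ℤ) ∧
      (k : ZMod q) = hx (f i) (f j) := by
    intro i j
    by_cases hij : i = j
    · subst hij
      refine ⟨0, fun _ => rfl, fun h => absurd rfl h, ?_, ?_⟩
      · rw [abs_zero]; positivity
      · rw [hx_self]; simp
    · obtain ⟨k, h1, h2, h3⟩ := oddSet_lift (hf i j hij)
      exact ⟨k, fun h => absurd h hij, fun _ => h1, h2, h3⟩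
  choose y hy0 hy1 hy2 hy3 using hlift
  let Y : Matrix (Option (Fin t)) (Option (Fin t)) ℤ := fun a b =>
    match a, b with
    | none, none => 0
    | none, some _ => 1
    | some _, none => -1
    | some i, some j => y i j
  let B : Matrix (Option (Fin t)) (Fin 4) ℤ := fun a =>
    match a with
    | none => ![0, 0, 1, 0]
    | some i => ![((f i).1.val : ℤ), ((f i).2.1.val : ℤ), ((f i).2.2.val : ℤ), 1]
  let C : Matrix (Fin 4) (Option (Fin t)) ℤ := fun r a =>
    match a with
    | none => (![0, 0, 0, -1] : Fin 4 → ℤ) r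
    | some j => (![((f j).2.1.val : ℤ), -((f j).1.val : ℤ), 1, -((f j).2.2.val : ℤ)] : Fin 4 → ℤ) r
  let d : Option (Fin t) → ℤ := fun a =>
    match a with
    | none => 2 * (w : ℤ)
    | some _ => 1
  have hw' : (1 : ℤ) ≤ w := by exact_mod_cast hw
  have key := det_ineq q (Fact.out : q.Prime).ne_zero (ι := Option (Fin t)) (κ := Fin 4)
    (by rw [Fintype.card_option, Fintype.card_fin]; exact ht.add_one) Y
    (by
      intro a
      rcases a with _ | i
      · rfl
      · exact hy0 i i rfl)
    (by
      intro a b hab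
      rcases a with _ | i <;> rcases b with _ | j
      · exact absurd rfl hab
      · exact odd_one
      · exact odd_one.neg
      · exact hy1 i j (fun h => hab (by rw [h])))
    B C (t - 3) (by rw [Fintype.card_option, Fintype.card_fin, Fintype.card_fin]; omega)
    (by
      intro a b
      rw [Matrix.mul_apply, Fin.sum_univ_four]
      rcases a with _ | i <;> rcases b with _ | j
      · simp [Y, B, C]
      · simp [Y, B, C]
      · simp [Y, B, C]
      · simp only [Y, B, C]
        rw [hy3]
        simp [hx]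
        ring)
    d (2 * (w : ℤ))
    (by
      intro a b
      rcases a with _ | i <;> rcases b with _ | j
      · simp [Y, d]
      · simp only [Y, d, mul_one]
        rw [abs_of_nonneg (by positivity)]
      · simp only [Y, d, one_mul]
        rw [neg_one_mul, abs_neg, abs_of_nonneg (by positivity)]
      · simp only [Y, d, one_mul, mul_one]
        exact hy2 i j)
  rw [Fintype.prod_option] at key
  simp only [d, Finset.prod_const_one, mul_one, Fintype.card_option, Fintype.card_fin] at key
  have key2 : (q : ℤ) ^ (t - 3) * (2 * (w : ℤ)) ^ 2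
      ≤ (((t + 1).factorial : ℤ) * (2 * (w : ℤ)) ^ (t - 1)) * (2 * (w : ℤ)) ^ 2 := by
    refine key.trans (le_of_eq ?_)
    have : t + 1 = (t - 1) + 2 := by omega
    rw [mul_assoc, ← pow_add, ← this]
  have key3 := le_of_mul_le_mul_right key2 (by positivity)
  exact_mod_cast key3

theorem heis_cliqueFree {q : ℕ} [Fact q.Prime] {t w : ℕ} (ht : Odd t) (ht3 : 3 ≤ t) (hw : 1 ≤ w)
    (hlt : (t + 1).factorial * (2 * w) ^ (t - 1) < q ^ (t - 3))
    (hsymm : ∀ u v : ZMod q × ZMod q × ZMod q, hx u v ∈ oddSet q w → hx v u ∈ oddSet q w)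
    (hirr : ∀ u : ZMod q × ZMod q × ZMod q, hx u u ∉ oddSet q w) :
    (relGraph hx (oddSet q w) hsymm hirr).CliqueFree t := by
  by_contra hcl
  have f := SimpleGraph.topEmbeddingOfNotCliqueFree hcl
  have h1 := heis_clique_ineq ht ht3 hw (fun i => f i) (by
    intro i j hij
    have : (relGraph hx (oddSet q w) hsymm hirr).Adj (f i) (f j) := by
      rw [f.map_adj_iff]
      exact hij
    exact this)
  omega

end Pool.Agent.FCE
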