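import Mathlib
import Pool.Agent.FCE.OddFree

namespace Pool.Agent.FCE

open Finset

/-- Choice of the largest admissible `w`. -/
theorem exists_w (A a b q : ℕ) (hA : 1 ≤ A) (hb : b < a) (hb1 : 1 ≤ b) (hq : A * 2 ^ a < q) :
    ∃ w : ℕ, 1 ≤ w ∧ A * (2 * w) ^ a < q ^ b ∧ q ^ b ≤ A * (4 * w) ^ a := by
  classical
  have hq1 : 1 ≤ q := by omega
  have hP1 : A * (2 * 1) ^ a < q ^ b := by
    calc A * (2 * 1) ^ a = A * 2 ^ a := by norm_num
      _ < q := hq
      _ = q ^ 1 := (pow_one q).symm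
      _ ≤ q ^ b := Nat.pow_le_pow_right hq1 hb1
  have hPq : ∀ w, q ≤ w → ¬ (A * (2 * w) ^ a < q ^ b) := by
    intro w hw h
    have h1 : q ^ b ≤ q ^ a := Nat.pow_le_pow_right hq1 hb.le
    have h2 : q ^ a ≤ (2 * w) ^ a := Nat.pow_le_pow_left (by omega) a
    have h3 : (2 * w) ^ a ≤ A * (2 * w) ^ a := Nat.le_mul_of_pos_left _ (by omega)
    omega
  set P : ℕ → Prop := fun w => A * (2 * w) ^ a < q ^ b with hP
  set w := Nat.findGreatest P q with hw
  have hw1 : 1 ≤ w := Nat.le_findGreatest hq1 hP1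
  have hPw : P w := Nat.findGreatest_spec hq1 hP1
  refine ⟨w, hw1, hPw, ?_⟩
  have hn : ¬ P (w + 1) := by
    by_cases hwq : w + 1 ≤ q
    · exact Nat.findGreatest_is_greatest (Nat.lt_succ_self w) hwq
    · exact hPq (w + 1) (by omega)
  rw [hP] at hn
  simp only [not_lt] at hn
  refine hn.trans ?_
  apply Nat.mul_le_mul_left
  apply Nat.pow_le_pow_left
  omega

theorem odd_attained (t : ℕ) (ht : Odd t) (h5 : 5 ≤ t) : Attained t (((t : ℝ) + 1) / 2) := by
  obtain ⟨j, hj⟩ := ht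
  set A : ℕ := (t + 1).factorial with hA
  have hA1 : 1 ≤ A := Nat.factorial_pos _
  apply attained_of (C := (A : ℝ) * 4 ^ j) (by positivity)
  intro ε hε n₀
  obtain ⟨N1, hN1⟩ := exists_nat_gt (1 / ε ^ (t - 1))
  obtain ⟨q, hq, hqp⟩ := Nat.exists_infinite_primes (n₀ + N1 + A * 2 ^ (t - 1) + 1)
  have : Fact q.Prime := ⟨hqp⟩
  obtain ⟨w, hw1, hw2, hw3⟩ := exists_w A (t - 1) (t - 3) q hA1 (by omega) (by omega) (by omega)
  have hq1 : 1 ≤ q := hqp.one_lt.le
  have h2w : 2 * w < q := by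
    by_contra h
    push Not at h
    have h1 : q ^ (t - 3) ≤ q ^ (t - 1) := Nat.pow_le_pow_right hq1 (by omega)
    have h2 : q ^ (t - 1) ≤ (2 * w) ^ (t - 1) := Nat.pow_le_pow_left h _
    have h3 : (2 * w) ^ (t - 1) ≤ A * (2 * w) ^ (t - 1) := Nat.le_mul_of_pos_left _ (by omega)
    omega
  set S := oddSet q w with hS
  set m := S.card with hm
  have hm1 : w ≤ m := le_oddSet_card h2w.le
  have hm2 : m ≤ 2 * w := oddSet_card_le q w
  have hsymm : ∀ u v : ZMod q × ZMod q × ZMod q, hx u v ∈ S → hx v u ∈ S := by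
    intro u v h
    rw [hx_antisymm]
    exact oddSet_neg h
  have hirr : ∀ u : ZMod q × ZMod q × ZMod q, hx u u ∉ S := by
    intro u
    rw [hx_self]
    exact oddSet_zero h2w.le
  have hcardV : Fintype.card (ZMod q × ZMod q × ZMod q) = q ^ 3 := by
    rw [Fintype.card_prod, Fintype.card_prod, ZMod.card]
    ring
  have hqR : (0 : ℝ) < q := by exact_mod_cast hq1
  have hJ := relGraph_jumbled (hx (K := ZMod q)) S hsymm hirr ((q : ℝ) ^ 2)
    (by
      intro y _ u
      rw [hx_deg, ZMod.card])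
    (by
      intro y _ u u' huu
      refine (hx_codeg u u' huu y).trans (le_of_eq ?_)
      rw [hcardV, ZMod.card]
      push_cast
      field_simp)
  have hmR : (1 : ℝ) ≤ m := by
    have : 1 ≤ m := by omega
    exact_mod_cast this
  have hmq : (m : ℝ) < q := by
    have : m < q := by omega
    exact_mod_cast this
  have hP : (m : ℝ) * ((q : ℝ) ^ 2 / (Fintype.card (ZMod q × ZMod q × ZMod q) : ℝ)) = m / q := by
    rw [hcardV]
    push_cast
    field_simp
  rw [hP, Real.sqrt_sq hqR.le] at hJ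
  refine ⟨q ^ 3, (m : ℝ) / q, ?_, by positivity, ?_, ?_, ZMod q × ZMod q × ZMod q, inferInstance,
    relGraph hx S hsymm hirr, (m : ℝ) * q, hcardV,
    heis_cliqueFree ⟨j, hj⟩ (by omega) hw1 hw2 hsymm hirr, by positivity, ?_, hJ⟩
  · have : q ≤ q ^ 3 := Nat.le_self_pow (by norm_num) q
    omega
  · rw [div_le_one hqR]
    exact hmq.le
  · -- smallness of the density
    have h1 : ((m : ℝ) / q) ^ (t - 1) < ε ^ (t - 1) := by
      have e1 : ((m : ℝ)) ^ (t - 1) ≤ (q : ℝ) ^ (t - 3) := by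
        have h3 : m ^ (t - 1) ≤ (2 * w) ^ (t - 1) := Nat.pow_le_pow_left hm2 _
        have h4 : (2 * w) ^ (t - 1) ≤ A * (2 * w) ^ (t - 1) := Nat.le_mul_of_pos_left _ (by omega)
        have : m ^ (t - 1) ≤ q ^ (t - 3) := by omega
        exact_mod_cast this
      have e2 : (q : ℝ) ^ (t - 1) = (q : ℝ) ^ (t - 3) * (q : ℝ) ^ 2 := by
        rw [← pow_add]
        congr 1
        omega
      rw [div_pow, div_lt_iff₀ (by positivity), e2]
      have e3 : 1 < ε ^ (t - 1) * (q : ℝ) ^ 2 := by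
        have e4 : (N1 : ℝ) ≤ q := by
          have : N1 ≤ q := by omega
          exact_mod_cast this
        have e5 : 1 / ε ^ (t - 1) < q := lt_of_lt_of_le hN1 e4
        rw [div_lt_iff₀ (by positivity)] at e5
        have e6 : (1 : ℝ) ≤ q := by exact_mod_cast hq1
        have e7 : (q : ℝ) * ε ^ (t - 1) ≤ (q : ℝ) ^ 2 * ε ^ (t - 1) := by
          apply mul_le_mul_of_nonneg_right _ (by positivity)
          nlinarith
        linarith [mul_comm ((q : ℝ) ^ 2) (ε ^ (t - 1))]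
      have e8 : (0 : ℝ) < (q : ℝ) ^ (t - 3) := by positivity
      calc (m : ℝ) ^ (t - 1) ≤ (q : ℝ) ^ (t - 3) * 1 := by rw [mul_one]; exact e1
        _ < (q : ℝ) ^ (t - 3) * (ε ^ (t - 1) * (q : ℝ) ^ 2) :=
          mul_lt_mul_of_pos_left e3 e8
        _ = _ := by ring
    exact lt_of_pow_lt_pow_left₀ _ hε.le h1
  · -- the bound on beta
    have hexp : ((t : ℝ) + 1) / 2 = ((j + 1 : ℕ) : ℝ) := by
      rw [hj]
      push_cast
      ring
    rw [hexp, Real.rpow_natCast]
    have h1 : q ^ (j - 1) ≤ A * (4 * m) ^ j := by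
      have h2 : (q ^ (j - 1)) ^ 2 ≤ (A * (4 * m) ^ j) ^ 2 := by
        calc (q ^ (j - 1)) ^ 2 = q ^ (t - 3) := by
              rw [← pow_mul]
              congr 1
              omega
          _ ≤ A * (4 * w) ^ (t - 1) := hw3
          _ ≤ A ^ 2 * (4 * m) ^ (t - 1) := by
              apply Nat.mul_le_mul
              · exact Nat.le_self_pow (by norm_num) A
              · apply Nat.pow_le_pow_left
                omega
          _ = (A * (4 * m) ^ j) ^ 2 := by
              have e0 : t - 1 = j * 2 := by omega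
              rw [e0, pow_mul]
              ring
      exact (Nat.pow_le_pow_iff_left (by norm_num)).1 h2
    have h1R : (q : ℝ) ^ (j - 1) ≤ (A : ℝ) * (4 * m) ^ j := by exact_mod_cast h1
    have hj1 : (q : ℝ) ^ (j + 1) = (q : ℝ) ^ (j - 1) * (q : ℝ) ^ 2 := by
      rw [← pow_add]
      congr 1
      omega
    have hqj : (0 : ℝ) < (q : ℝ) ^ (j - 1) := by positivity
    have e1 : (A : ℝ) * 4 ^ j * ((m : ℝ) / q) ^ (j + 1) * ((q ^ 3 : ℕ) : ℝ)
        = ((A : ℝ) * (4 * m) ^ j / (q : ℝ) ^ (j - 1)) * (m * q) := by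
      push_cast
      rw [div_pow, hj1, mul_pow, pow_succ (m : ℝ) j]
      field_simp
    rw [e1]
    have e2 : 1 ≤ (A : ℝ) * (4 * m) ^ j / (q : ℝ) ^ (j - 1) := by
      rw [le_div_iff₀ hqj, one_mul]
      exact h1R
    have e3 : (0 : ℝ) < m * q := by positivity
    nlinarith

end Pool.Agent.FCE
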