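import Mathlib
import Pool.Agent.FCE.Core

namespace Pool.Agent.FCE

open Finset

/-- The standard symplectic form on `K ^ (2 k)`. -/
def sx {K : Type*} [Field K] {k : ℕ} (u v : (Fin k → K) × (Fin k → K)) : K :=
  ∑ i, (u.1 i * v.2 i - u.2 i * v.1 i)

theorem sx_self {K : Type*} [Field K] {k : ℕ} (u : (Fin k → K) × (Fin k → K)) : sx u u = 0 := by
  unfold sx
  apply Finset.sum_eq_zero
  intro i _
  ring

theorem sx_antisymm {K : Type*} [Field K] {k : ℕ} (u v : (Fin k → K) × (Fin k → K)) :
    sx v u = -sx u v := by
  unfold sx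
  rw [← Finset.sum_neg_distrib]
  apply Finset.sum_congr rfl
  intro i _
  ring

/-- `sx u` as a linear map. -/
def sxl {K : Type*} [Field K] {k : ℕ} (u : (Fin k → K) × (Fin k → K)) :
    ((Fin k → K) × (Fin k → K)) →ₗ[K] K where
  toFun v := sx u v
  map_add' v w := by
    unfold sx
    rw [← Finset.sum_add_distrib]
    apply Finset.sum_congr rfl
    intro i _
    simp only [Prod.fst_add, Prod.snd_add, Pi.add_apply]
    ring
  map_smul' c v := by
    unfold sx
    rw [RingHom.id_apply, smul_eq_mul, Finset.mul_sum]
    apply Finset.sum_congr rfl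
    intro i _
    simp only [Prod.smul_fst, Prod.smul_snd, Pi.smul_apply, smul_eq_mul]
    ring

theorem sxl_apply {K : Type*} [Field K] {k : ℕ} (u v : (Fin k → K) × (Fin k → K)) :
    sxl u v = sx u v := rfl

theorem sx_nondeg {K : Type*} [Field K] {k : ℕ} (u : (Fin k → K) × (Fin k → K))
    (h : ∀ v, sx u v = 0) : u = 0 := by
  classical
  have h1 : u.1 = 0 := by
    funext i
    have := h (0, Pi.single i 1)
    unfold sx at this
    rw [Finset.sum_eq_single i] at this
    · simpa using this
    · intro j _ hj
      simp [Pi.single_eq_of_ne hj]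
    · intro hi
      exact absurd (Finset.mem_univ i) hi
  have h2 : u.2 = 0 := by
    funext i
    have := h (Pi.single i 1, 0)
    unfold sx at this
    rw [Finset.sum_eq_single i] at this
    · simpa using this
    · intro j _ hj
      simp [Pi.single_eq_of_ne hj]
    · intro hi
      exact absurd (Finset.mem_univ i) hi
  exact Prod.ext h1 h2

theorem sx_sub_left {K : Type*} [Field K] {k : ℕ} (u u' v : (Fin k → K) × (Fin k → K)) :
    sx (u - u') v = sx u v - sx u' v := by
  rw [sx_antisymm, sx_antisymm v u, sx_antisymm v u', ← sxl_apply, map_sub, sxl_apply, sxl_apply]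
  ring

/-- All fibres of a surjective homomorphism of finite groups have the same size. -/
theorem card_fiber_mul {G H : Type*} [AddGroup G] [Fintype G] [AddGroup H] [Fintype H]
    [DecidableEq H] (f : G →+ H) (hf : Function.Surjective f) (h0 : H) :
    (univ.filter (fun g => f g = h0)).card * Fintype.card H = Fintype.card G := by
  classical
  have h1 : ∀ h : H, (univ.filter (fun g => f g = h)).card
      = (univ.filter (fun g => f g = h0)).card := by
    intro h
    exact AddMonoidHom.card_fiber_eq_of_mem_range f (hf h) (hf h0)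
  have h2 := Finset.card_eq_sum_card_fiberwise (s := (univ : Finset G)) (t := (univ : Finset H))
    (f := fun g => f g) (fun _ _ => Finset.mem_coe.2 (Finset.mem_univ _))
  rw [Finset.card_univ] at h2
  rw [h2]
  simp_rw [h1]
  rw [Finset.sum_const, Finset.card_univ, smul_eq_mul, mul_comm]

theorem card_space {K : Type*} [Field K] [Fintype K] (k : ℕ) :
    Fintype.card ((Fin k → K) × (Fin k → K)) = (Fintype.card K) ^ (2 * k) := by
  rw [Fintype.card_prod, Fintype.card_fun, Fintype.card_fin, ← pow_add]
  congr 1
  omega

theorem sx_surj {K : Type*} [Field K] {k : ℕ} (u : (Fin k → K) × (Fin k → K)) (hu : u ≠ 0) :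
    Function.Surjective (sxl u) := by
  have h : ∃ v, sx u v ≠ 0 := by
    by_contra h
    push Not at h
    exact hu (sx_nondeg u h)
  obtain ⟨v, hv⟩ := h
  intro y
  refine ⟨(y * (sx u v)⁻¹) • v, ?_⟩
  rw [map_smul, sxl_apply, smul_eq_mul, mul_assoc, inv_mul_cancel₀ hv, mul_one]

theorem sx_deg_card {K : Type*} [Field K] [Fintype K] [DecidableEq K] {k : ℕ}
    (u : (Fin k → K) × (Fin k → K)) (hu : u ≠ 0) (y : K) :
    (univ.filter (fun v => sx u v = y)).card * Fintype.card K = (Fintype.card K) ^ (2 * k) := by
  have := card_fiber_mul (sxl u).toAddMonoidHom (sx_surj u hu) y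
  rw [card_space] at this
  exact this

theorem sx_codeg_card {K : Type*} [Field K] [Fintype K] [DecidableEq K] {k : ℕ}
    (u u' : (Fin k → K) × (Fin k → K)) (huu : u ≠ u') (y : K) (hy : y ≠ 0) :
    (univ.filter (fun v => sx u v = y ∧ sx u' v = y)).card * (Fintype.card K) ^ 2
      ≤ (Fintype.card K) ^ (2 * k) := by
  classical
  set φ : ((Fin k → K) × (Fin k → K)) →ₗ[K] K × K := (sxl u).prod (sxl u') with hφ
  have hφa : ∀ v, φ v = (sx u v, sx u' v) := fun v => rfl
  by_cases hs : Function.Surjective φ
  · have := card_fiber_mul φ.toAddMonoidHom hs (y, y)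
    rw [card_space, Fintype.card_prod] at this
    have e1 : (univ.filter (fun v => sx u v = y ∧ sx u' v = y))
        = univ.filter (fun v => φ.toAddMonoidHom v = (y, y)) := by
      ext v
      simp only [mem_filter, mem_univ, true_and]
      change _ ↔ φ v = (y, y)
      rw [hφa, Prod.mk.injEq]
    rw [e1, sq]
    exact this.le
  · have hlt : LinearMap.range φ < ⊤ := by
      rw [lt_top_iff_ne_top]
      intro h
      exact hs (LinearMap.range_eq_top.1 h)
    obtain ⟨f, hf0, hf⟩ := Submodule.exists_le_ker_of_lt_top _ hlt
    have hf' : ∀ v, f (φ v) = 0 := by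
      intro v
      have : φ v ∈ LinearMap.ker f := hf (LinearMap.mem_range_self φ v)
      exact this
    have hfe : ∀ a b : K, f (a, b) = a * f (1, 0) + b * f (0, 1) := by
      intro a b
      have : ((a, b) : K × K) = a • ((1, 0) : K × K) + b • ((0, 1) : K × K) := by
        simp
      rw [this, map_add, map_smul, map_smul, smul_eq_mul, smul_eq_mul]
    have hempty : (univ.filter (fun v => sx u v = y ∧ sx u' v = y)) = ∅ := by
      rw [Finset.filter_eq_empty_iff]
      rintro v - ⟨h1, h2⟩
      have h3 := hf' v
      rw [hφa, h1, h2, hfe] at h3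
      have h4 : f (1, 0) + f (0, 1) = 0 := by
        have : y * (f (1, 0) + f (0, 1)) = 0 := by linear_combination h3
        exact (mul_eq_zero.1 this).resolve_left hy
      have h5 : f (1, 0) ≠ 0 := by
        intro h
        apply hf0
        have h' : f (0, 1) = 0 := by rw [h, zero_add] at h4; exact h4
        apply LinearMap.ext
        rintro ⟨a, b⟩
        rw [hfe, h, h', mul_zero, mul_zero, add_zero, LinearMap.zero_apply]
      apply huu
      rw [← sub_eq_zero]
      apply sx_nondeg
      intro v'
      rw [sx_sub_left]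
      have h6 := hf' v'
      rw [hφa, hfe] at h6
      have h7 : f (1, 0) * (sx u v' - sx u' v') = 0 := by
        have : f (0, 1) = - f (1, 0) := by linear_combination h4
        rw [this] at h6
        linear_combination h6
      exact (mul_eq_zero.1 h7).resolve_left h5
    rw [hempty, card_empty, zero_mul]
    exact Nat.zero_le _

end Pool.Agent.FCE
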