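import Mathlib
import Pool.Agent.FCE.Sympl

namespace Pool.Agent.FCE

open Finset

/-- The nonzero vectors of `K ^ (2 k)`. -/
abbrev SV (K : Type) [Field K] (k : ℕ) : Type := {v : (Fin k → K) × (Fin k → K) // v ≠ 0}

/-- The symplectic form on nonzero vectors. -/
def sv {K : Type} [Field K] {k : ℕ} (u v : SV K k) : K := sx u.1 v.1

theorem card_SV (K : Type) [Field K] [Fintype K] [DecidableEq K] (k : ℕ) :
    Fintype.card (SV K k) + 1 = (Fintype.card K) ^ (2 * k) := by
  classical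
  rw [← card_space (K := K) k]
  have h := Fintype.card_subtype_compl (fun v : (Fin k → K) × (Fin k → K) => v = 0)
  rw [Fintype.card_subtype_eq] at h
  have h2 : 0 < Fintype.card ((Fin k → K) × (Fin k → K)) := Fintype.card_pos
  have h3 : Fintype.card (SV K k) = Fintype.card {x : (Fin k → K) × (Fin k → K) // ¬ x = 0} :=
    Fintype.card_congr (Equiv.refl _)
  rw [h3, h]
  omega

theorem sum_SV {K : Type} [Field K] [Fintype K] [DecidableEq K] {k : ℕ}
    (F : (Fin k → K) × (Fin k → K) → ℝ) (hF : F 0 = 0) :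
    ∑ v : SV K k, F v.1 = ∑ v, F v := by
  classical
  have h1 : ∑ v : SV K k, F v.1 = ∑ v ∈ univ.filter (fun v : (Fin k → K) × (Fin k → K) => v ≠ 0), F v := by
    rw [Finset.sum_subtype (univ.filter (fun v : (Fin k → K) × (Fin k → K) => v ≠ 0))]
    intro v
    simp
  rw [h1, Finset.sum_filter]
  apply Finset.sum_congr rfl
  intro v _
  by_cases hv : v = 0
  · subst hv
    simp [hF]
  · rw [if_pos hv]

theorem sx_zero_right {K : Type} [Field K] {k : ℕ} (u : (Fin k → K) × (Fin k → K)) :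
    sx u 0 = 0 := by
  rw [← sxl_apply, map_zero]

theorem sv_deg {K : Type} [Field K] [Fintype K] [DecidableEq K] {k : ℕ} (hk : 1 ≤ k) (u : SV K k)
    (y : K) (hy : y ≠ 0) :
    ∑ v : SV K k, (if sv u v = y then (1 : ℝ) else 0) = (Fintype.card K : ℝ) ^ (2 * k - 1) := by
  classical
  have h1 : ∑ v : SV K k, (if sv u v = y then (1 : ℝ) else 0)
      = ∑ v : (Fin k → K) × (Fin k → K), (if sx u.1 v = y then (1 : ℝ) else 0) :=
    sum_SV (fun v => if sx u.1 v = y then (1 : ℝ) else 0) (by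
      rw [sx_zero_right, if_neg (fun h => hy h.symm)])
  rw [h1, Finset.sum_boole]
  have h2 := sx_deg_card u.1 u.2 y
  have h3 : (0 : ℝ) < Fintype.card K := by exact_mod_cast Fintype.card_pos
  have h4 : (((univ.filter (fun v => sx u.1 v = y)).card : ℕ) : ℝ) * (Fintype.card K : ℝ)
      = (Fintype.card K : ℝ) ^ (2 * k - 1) * (Fintype.card K : ℝ) := by
    rw [← pow_succ, show 2 * k - 1 + 1 = 2 * k by omega]
    exact_mod_cast h2
  exact mul_right_cancel₀ h3.ne' h4

theorem sv_codeg {K : Type} [Field K] [Fintype K] [DecidableEq K] {k : ℕ} (hk : 1 ≤ k)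
    (u u' : SV K k) (huu : u ≠ u') (y : K) (hy : y ≠ 0) :
    ∑ v : SV K k, (if sv u v = y then (1 : ℝ) else 0) * (if sv u' v = y then (1 : ℝ) else 0)
      ≤ ((Fintype.card K : ℝ) ^ (2 * k - 1)) ^ 2 / (Fintype.card (SV K k) : ℝ) := by
  classical
  have h1 : ∑ v : SV K k, (if sv u v = y then (1 : ℝ) else 0)
        * (if sv u' v = y then (1 : ℝ) else 0)
      = ∑ v : (Fin k → K) × (Fin k → K), (if sx u.1 v = y then (1 : ℝ) else 0)
        * (if sx u'.1 v = y then (1 : ℝ) else 0) :=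
    sum_SV (fun v => (if sx u.1 v = y then (1 : ℝ) else 0)
        * (if sx u'.1 v = y then (1 : ℝ) else 0)) (by
      rw [sx_zero_right, if_neg (fun h => hy h.symm), zero_mul])
  have h1' : ∀ v : (Fin k → K) × (Fin k → K), (if sx u.1 v = y then (1 : ℝ) else 0)
        * (if sx u'.1 v = y then (1 : ℝ) else 0)
      = if (sx u.1 v = y ∧ sx u'.1 v = y) then (1 : ℝ) else 0 := by
    intro v
    by_cases ha : sx u.1 v = y <;> by_cases hb : sx u'.1 v = y <;> simp [ha, hb]
  rw [h1]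
  simp_rw [h1']
  rw [Finset.sum_boole]
  have h2 := sx_codeg_card u.1 u'.1 (fun h => huu (Subtype.ext h)) y hy
  have h3 : (0 : ℝ) < Fintype.card K := by exact_mod_cast Fintype.card_pos
  have hcard := card_SV K k
  have hVpos : 0 < Fintype.card (SV K k) := Fintype.card_pos_iff.2 ⟨u⟩
  have hVR : (0 : ℝ) < Fintype.card (SV K k) := by exact_mod_cast hVpos
  have hcardR : (Fintype.card (SV K k) : ℝ) + 1 = (Fintype.card K : ℝ) ^ (2 * k) := by
    exact_mod_cast hcard
  have h4 : (((univ.filter (fun v => sx u.1 v = y ∧ sx u'.1 v = y)).card : ℕ) : ℝ)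
      * (Fintype.card K : ℝ) ^ 2 ≤ (Fintype.card K : ℝ) ^ (2 * k) := by
    exact_mod_cast h2
  set N : ℝ := (((univ.filter (fun v => sx u.1 v = y ∧ sx u'.1 v = y)).card : ℕ) : ℝ) with hN
  have hN0 : 0 ≤ N := by rw [hN]; positivity
  rw [le_div_iff₀ hVR]
  have h5 : ((Fintype.card K : ℝ) ^ (2 * k - 1)) ^ 2 * (Fintype.card K : ℝ) ^ 2
      = (Fintype.card K : ℝ) ^ (2 * k) * (Fintype.card K : ℝ) ^ (2 * k) := by
    rw [← mul_pow, ← pow_succ, show 2 * k - 1 + 1 = 2 * k by omega]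
    ring
  have h6 : N * (Fintype.card (SV K k) : ℝ) * (Fintype.card K : ℝ) ^ 2
      ≤ ((Fintype.card K : ℝ) ^ (2 * k - 1)) ^ 2 * (Fintype.card K : ℝ) ^ 2 := by
    rw [h5]
    calc N * (Fintype.card (SV K k) : ℝ) * (Fintype.card K : ℝ) ^ 2
        = (N * (Fintype.card K : ℝ) ^ 2) * (Fintype.card (SV K k) : ℝ) := by ring
      _ ≤ (Fintype.card K : ℝ) ^ (2 * k) * (Fintype.card K : ℝ) ^ (2 * k) := by
        apply mul_le_mul h4 _ hVR.le (by positivity)
        linarith
  exact le_of_mul_le_mul_right h6 (by positivity)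

theorem sv_jumbled {K : Type} [Field K] [Fintype K] [DecidableEq K] {k : ℕ} (hk : 1 ≤ k)
    (S : Finset K) (hsymm : ∀ u v : SV K k, sv u v ∈ S → sv v u ∈ S)
    (hirr : ∀ u : SV K k, sv u u ∉ S) (h0 : (0 : K) ∉ S) :
    Jumbled (relGraph sv S hsymm hirr)
      ((S.card : ℝ) * ((Fintype.card K : ℝ) ^ (2 * k - 1) / (Fintype.card (SV K k) : ℝ)))
      ((S.card : ℝ) * Real.sqrt ((Fintype.card K : ℝ) ^ (2 * k - 1))) := by
  classical
  apply relGraph_jumbled
  · intro y hy u
    exact sv_deg hk u y (fun h => h0 (h ▸ hy))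
  · intro y hy u u' huu
    exact sv_codeg hk u u' huu y (fun h => h0 (h ▸ hy))

end Pool.Agent.FCE
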