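import Mathlib
import Pool.Agent.FCE.SymplGraph
import Pool.Agent.FCE.OddMain

namespace Pool.Agent.FCE

open Finset

/-- If `t = 2 k + 2` nonzero vectors of a `2 k`-dimensional symplectic space have pairwise
products in the odd set, then `q ^ 2` is small. -/
theorem symp_clique_ineq {q : ℕ} [Fact q.Prime] {k w : ℕ}
    (f : Fin (2 * k + 2) → SV (ZMod q) k)
    (hf : ∀ i j, i ≠ j → sv (f i) (f j) ∈ oddSet q w) :
    q ^ 2 ≤ (2 * k + 2).factorial * (2 * w) ^ (2 * k + 2) := by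
  classical
  have hlift : ∀ i j, ∃ c : ℤ, (i = j → c = 0) ∧ (i ≠ j → Odd c) ∧ |c| ≤ 2 * (w : ℤ) ∧
      (c : ZMod q) = sv (f i) (f j) := by
    intro i j
    by_cases hij : i = j
    · subst hij
      refine ⟨0, fun _ => rfl, fun h => absurd rfl h, ?_, ?_⟩
      · rw [abs_zero]; positivity
      · have : sv (f i) (f i) = 0 := sx_self (f i).1
        rw [this]; simp
    · obtain ⟨c, h1, h2, h3⟩ := oddSet_lift (hf i j hij)
      exact ⟨c, fun h => absurd h hij, fun _ => h1, h2, h3⟩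
  choose y hy0 hy1 hy2 hy3 using hlift
  let B : Matrix (Fin (2 * k + 2)) (Fin k ⊕ Fin k) ℤ := fun i r =>
    match r with
    | Sum.inl r => (((f i).1.1 r).val : ℤ)
    | Sum.inr r => (((f i).1.2 r).val : ℤ)
  let C : Matrix (Fin k ⊕ Fin k) (Fin (2 * k + 2)) ℤ := fun r j =>
    match r with
    | Sum.inl r => (((f j).1.2 r).val : ℤ)
    | Sum.inr r => -(((f j).1.1 r).val : ℤ)
  have key := det_ineq q (Fact.out : q.Prime).ne_zero (ι := Fin (2 * k + 2)) (κ := Fin k ⊕ Fin k)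
    (by rw [Fintype.card_fin]; exact ⟨k + 1, by ring⟩) (Matrix.of y)
    (fun i => hy0 i i rfl)
    (fun i j hij => hy1 i j hij)
    B C 2 (by rw [Fintype.card_sum, Fintype.card_fin, Fintype.card_fin]; omega)
    (by
      intro i j
      rw [Matrix.mul_apply, Fintype.sum_sum_type, Matrix.of_apply, hy3]
      simp only [B, C]
      unfold sv sx
      push_cast
      rw [← Finset.sum_add_distrib]
      apply Finset.sum_congr rfl
      intro r _
      simp only [ZMod.natCast_val, ZMod.cast_id', id]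
      ring)
    (fun _ => 1) (2 * (w : ℤ))
    (by
      intro i j
      rw [one_mul, mul_one]
      exact hy2 i j)
  rw [Finset.prod_const_one, one_pow, mul_one, Fintype.card_fin] at key
  exact_mod_cast key

theorem symp_cliqueFree {q : ℕ} [Fact q.Prime] {k w : ℕ}
    (hlt : (2 * k + 2).factorial * (2 * w) ^ (2 * k + 2) < q ^ 2)
    (hsymm : ∀ u v : SV (ZMod q) k, sv u v ∈ oddSet q w → sv v u ∈ oddSet q w)
    (hirr : ∀ u : SV (ZMod q) k, sv u u ∉ oddSet q w) :
    (relGraph sv (oddSet q w) hsymm hirr).CliqueFree (2 * k + 2) := by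
  by_contra hcl
  have f := SimpleGraph.topEmbeddingOfNotCliqueFree hcl
  have h1 := symp_clique_ineq (fun i => f i) (by
    intro i j hij
    have : (relGraph sv (oddSet q w) hsymm hirr).Adj (f i) (f j) := by
      rw [f.map_adj_iff]
      exact hij
    exact this)
  omega

theorem even_attained (k : ℕ) (hk : 2 ≤ k) :
    Attained (2 * k + 2) ((k : ℝ) + 3 / 2 - 1 / (2 * k)) := by
  obtain ⟨A, hA⟩ : ∃ A : ℕ, A = (2 * k + 2).factorial := ⟨_, rfl⟩
  have hA1 : 1 ≤ A := by rw [hA]; exact Nat.factorial_pos _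
  apply attained_of (C := 2 * ((A : ℝ) * 4 ^ (k + 1))) (by positivity)
  intro ε hε n₀
  obtain ⟨N1, hN1⟩ := exists_nat_gt (2 ^ (2 * k + 2) / ε ^ (2 * k + 2))
  obtain ⟨q, hq, hqp⟩ := Nat.exists_infinite_primes (n₀ + N1 + A * 2 ^ (2 * k + 2) + 2)
  have : Fact q.Prime := ⟨hqp⟩
  obtain ⟨w, hw1, hw2, hw3⟩ := exists_w A (2 * k + 2) 2 q hA1 (by omega) (by omega) (by omega)
  have hq1 : 1 ≤ q := hqp.one_lt.le
  have h2w : 2 * w < q := by
    by_contra h
    push Not at h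
    have h1 : q ^ 2 ≤ q ^ (2 * k + 2) := Nat.pow_le_pow_right hq1 (by omega)
    have h2 : q ^ (2 * k + 2) ≤ (2 * w) ^ (2 * k + 2) := Nat.pow_le_pow_left h _
    have h3 : (2 * w) ^ (2 * k + 2) ≤ A * (2 * w) ^ (2 * k + 2) :=
      Nat.le_mul_of_pos_left _ (by omega)
    omega
  set S := oddSet q w with hS
  obtain ⟨m, hm⟩ : ∃ m : ℕ, m = S.card := ⟨_, rfl⟩
  have hm1 : w ≤ m := by rw [hm]; exact le_oddSet_card h2w.le
  have hm2 : m ≤ 2 * w := by rw [hm]; exact oddSet_card_le q w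
  have h0S : (0 : ZMod q) ∉ S := oddSet_zero h2w.le
  have hsymm : ∀ u v : SV (ZMod q) k, sv u v ∈ S → sv v u ∈ S := by
    intro u v h
    have : sv v u = -sv u v := sx_antisymm u.1 v.1
    rw [this]
    exact oddSet_neg h
  have hirr : ∀ u : SV (ZMod q) k, sv u u ∉ S := by
    intro u
    have : sv u u = 0 := sx_self u.1
    rw [this]
    exact h0S
  have hJ := sv_jumbled (K := ZMod q) (k := k) (by omega) S hsymm hirr h0S
  have hcardV := card_SV (ZMod q) k
  rw [ZMod.card] at hcardV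
  have hqR : (2 : ℝ) ≤ q := by
    have : 2 ≤ q := by omega
    exact_mod_cast this
  have hq0 : (0 : ℝ) < q := by linarith
  have hnR : (Fintype.card (SV (ZMod q) k) : ℝ) = (q : ℝ) ^ (2 * k) - 1 := by
    have h1 : (Fintype.card (SV (ZMod q) k) : ℝ) + 1 = (q : ℝ) ^ (2 * k) := by exact_mod_cast hcardV
    linarith
  have hn : Fintype.card (SV (ZMod q) k) = q ^ (2 * k) - 1 := by omega
  rw [ZMod.card, ← hm, hnR] at hJ
  -- the power `Q = q ^ (2 k - 1)`
  obtain ⟨Q, hQ⟩ : ∃ Q : ℝ, Q = (q : ℝ) ^ (2 * k - 1) := ⟨_, rfl⟩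
  have hQ2 : (q : ℝ) ^ (2 * k) = Q * q := by
    rw [hQ, ← pow_succ]
    congr 1
    omega
  have hQ1 : 1 ≤ Q := by
    rw [hQ]
    exact one_le_pow₀ (by linarith)
  have hmR : (1 : ℝ) ≤ m := by
    have : 1 ≤ m := by omega
    exact_mod_cast this
  have hmq : (m : ℝ) + 1 ≤ q := by
    have : m + 1 ≤ q := by omega
    exact_mod_cast this
  rw [← hQ, hQ2] at hJ
  have hden : (0 : ℝ) < Q * q - 1 := by nlinarith
  have hPle : (m : ℝ) * (Q / (Q * q - 1)) ≤ 2 * m / q := by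
    rw [← mul_div_assoc, div_le_div_iff₀ hden hq0]
    nlinarith
  have hPge : (m : ℝ) / q ≤ (m : ℝ) * (Q / (Q * q - 1)) := by
    rw [← mul_div_assoc, div_le_div_iff₀ hq0 hden]
    nlinarith
  refine ⟨q ^ (2 * k) - 1, (m : ℝ) * (Q / (Q * q - 1)), ?_, by positivity, ?_, ?_,
    SV (ZMod q) k, inferInstance, relGraph sv S hsymm hirr, (m : ℝ) * Real.sqrt Q, hn,
    symp_cliqueFree (by rw [← hA]; exact hw2) hsymm hirr, by positivity, ?_, hJ⟩
  · have : q ≤ q ^ (2 * k) := Nat.le_self_pow (by omega) q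
    omega
  · rw [← mul_div_assoc, div_le_one hden]
    nlinarith
  · refine lt_of_le_of_lt hPle ?_
    have h1 : (2 * (m : ℝ) / q) ^ (2 * k + 2) < ε ^ (2 * k + 2) := by
      have e1 : ((m : ℝ)) ^ (2 * k + 2) ≤ (q : ℝ) ^ 2 := by
        have h3 : m ^ (2 * k + 2) ≤ (2 * w) ^ (2 * k + 2) := Nat.pow_le_pow_left hm2 _
        have h4 : (2 * w) ^ (2 * k + 2) ≤ A * (2 * w) ^ (2 * k + 2) :=
          Nat.le_mul_of_pos_left _ (by omega)
        have : m ^ (2 * k + 2) ≤ q ^ 2 := by omega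
        exact_mod_cast this
      have e2 : (2 : ℝ) ^ (2 * k + 2) / ε ^ (2 * k + 2) < q := by
        refine lt_of_lt_of_le hN1 ?_
        have : N1 ≤ q := by omega
        exact_mod_cast this
      rw [div_lt_iff₀ (by positivity)] at e2
      rw [div_pow, div_lt_iff₀ (by positivity), mul_pow]
      have e3 : (0 : ℝ) < (q : ℝ) ^ 2 := by positivity
      have e4 : (q : ℝ) ^ 3 ≤ (q : ℝ) ^ (2 * k + 2) :=
        pow_le_pow_right₀ (by linarith) (by omega)
      calc (2 : ℝ) ^ (2 * k + 2) * (m : ℝ) ^ (2 * k + 2)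
          ≤ 2 ^ (2 * k + 2) * (q : ℝ) ^ 2 := mul_le_mul_of_nonneg_left e1 (by positivity)
        _ < (q * ε ^ (2 * k + 2)) * (q : ℝ) ^ 2 := mul_lt_mul_of_pos_right e2 e3
        _ = ε ^ (2 * k + 2) * (q : ℝ) ^ 3 := by ring
        _ ≤ ε ^ (2 * k + 2) * (q : ℝ) ^ (2 * k + 2) :=
          mul_le_mul_of_nonneg_left e4 (by positivity)
    exact lt_of_pow_lt_pow_left₀ _ hε.le h1
  · -- the bound on beta
    have hkR : (2 : ℝ) ≤ k := by exact_mod_cast hk
    have h1 : q ≤ A * (4 * m) ^ (k + 1) := by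
      have h2 : q ^ 2 ≤ (A * (4 * m) ^ (k + 1)) ^ 2 := by
        calc q ^ 2 ≤ A * (4 * w) ^ (2 * k + 2) := hw3
          _ ≤ A ^ 2 * (4 * m) ^ (2 * k + 2) := by
              apply Nat.mul_le_mul
              · exact Nat.le_self_pow (by norm_num) A
              · apply Nat.pow_le_pow_left
                omega
          _ = (A * (4 * m) ^ (k + 1)) ^ 2 := by
              have e0 : 2 * k + 2 = (k + 1) * 2 := by ring
              rw [e0, pow_mul]
              ring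
      exact (Nat.pow_le_pow_iff_left (by norm_num)).1 h2
    have h1R : (q : ℝ) ≤ ((A : ℝ) * 4 ^ (k + 1)) * (m : ℝ) ^ (k + 1) := by
      have : (q : ℝ) ≤ (A : ℝ) * (4 * m) ^ (k + 1) := by exact_mod_cast h1
      rw [mul_pow, ← mul_assoc] at this
      exact this
    have hcast : (((q ^ (2 * k) - 1 : ℕ)) : ℝ) = Q * q - 1 := by
      rw [← hn, hnR, hQ2]
    rw [hcast]
    set s : ℝ := (k : ℝ) + 3 / 2 - 1 / (2 * k) with hs
    set δ : ℝ := 1 - 1 / (2 * (k : ℝ)) with hδ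
    have hδ0 : 0 ≤ δ := by
      rw [hδ, sub_nonneg, div_le_one (by linarith)]
      linarith
    have hδ1 : δ ≤ 1 := by
      rw [hδ]
      have : 0 ≤ 1 / (2 * (k : ℝ)) := by positivity
      linarith
    have hs0 : 0 ≤ s := by
      rw [hs]
      have : 1 / (2 * (k : ℝ)) ≤ 1 := by
        rw [div_le_one (by linarith)]
        linarith
      linarith
    set D : ℝ := (A : ℝ) * 4 ^ (k + 1) with hD
    have hD1 : 1 ≤ D := by
      rw [hD]
      have e1 : (1 : ℝ) ≤ A := by exact_mod_cast hA1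
      have e2 : (1 : ℝ) ≤ 4 ^ (k + 1) := one_le_pow₀ (by norm_num)
      nlinarith
    have hm0 : (0 : ℝ) < m := by linarith
    have hx : (0 : ℝ) < (m : ℝ) / q := by positivity
    have h2 : ((m : ℝ) / q) ^ s ≤ ((m : ℝ) * (Q / (Q * q - 1))) ^ s :=
      Real.rpow_le_rpow hx.le hPge hs0
    -- main identity
    have hQs : Real.sqrt Q = (q : ℝ) ^ ((k : ℝ) - 1 / 2) := by
      rw [Real.sqrt_eq_rpow, hQ, ← Real.rpow_natCast, ← Real.rpow_mul hq0.le]
      congr 1
      rw [Nat.cast_sub (by omega)]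
      push_cast
      ring
    have hQq : Q * q = (q : ℝ) ^ (2 * (k : ℝ)) := by
      rw [← hQ2, ← Real.rpow_natCast]
      push_cast
      rfl
    have hid : ((m : ℝ) / q) ^ s * (Q * q)
        = ((m : ℝ) * Real.sqrt Q) * (((m : ℝ) ^ (k + 1) / q) ^ δ) := by
      rw [hQs, hQq, Real.div_rpow hm0.le hq0.le, Real.div_rpow (by positivity) hq0.le,
        ← Real.rpow_natCast (m : ℝ) (k + 1), ← Real.rpow_mul hm0.le]
      have e1 : (m : ℝ) ^ s = (m : ℝ) * (m : ℝ) ^ (((k + 1 : ℕ) : ℝ) * δ) := by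
        nth_rewrite 2 [← Real.rpow_one (m : ℝ)]
        rw [← Real.rpow_add hm0]
        congr 1
        rw [hs, hδ]
        push_cast
        field_simp
        ring
      have e2 : (q : ℝ) ^ (2 * (k : ℝ)) / (q : ℝ) ^ s
          = (q : ℝ) ^ ((k : ℝ) - 1 / 2) / (q : ℝ) ^ δ := by
        rw [← Real.rpow_sub hq0, ← Real.rpow_sub hq0]
        congr 1
        rw [hs, hδ]
        ring
      rw [e1, mul_comm_div, e2]
      ring
    have h3 : 1 / D ≤ ((m : ℝ) ^ (k + 1) / q) ^ δ := by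
      have e1 : 1 / D ≤ (m : ℝ) ^ (k + 1) / q := by
        rw [div_le_div_iff₀ (by linarith) hq0, one_mul]
        linarith [mul_comm D ((m : ℝ) ^ (k + 1))]
      have e2 : (1 / D) ^ δ ≤ ((m : ℝ) ^ (k + 1) / q) ^ δ :=
        Real.rpow_le_rpow (by positivity) e1 hδ0
      have e3 : 1 / D ≤ (1 / D) ^ δ := by
        nth_rewrite 1 [← Real.rpow_one (1 / D)]
        apply Real.rpow_le_rpow_of_exponent_ge (by positivity) _ hδ1
        rw [div_le_one (by linarith)]
        exact hD1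
      linarith
    have h4 : Q * q ≤ 2 * (Q * q - 1) := by nlinarith
    have hβ : (0 : ℝ) < (m : ℝ) * Real.sqrt Q := by positivity
    have h5 : (m : ℝ) * Real.sqrt Q ≤ D * (((m : ℝ) / q) ^ s * (Q * q)) := by
      rw [hid]
      have : 1 ≤ D * ((m : ℝ) ^ (k + 1) / q) ^ δ := by
        rw [div_le_iff₀ (by linarith)] at h3
        linarith [mul_comm D (((m : ℝ) ^ (k + 1) / q) ^ δ)]
      nlinarith
    have h6 : 0 ≤ D * ((m : ℝ) / q) ^ s := by positivity
    calc (m : ℝ) * Real.sqrt Q ≤ D * (((m : ℝ) / q) ^ s * (Q * q)) := h5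
      _ = D * ((m : ℝ) / q) ^ s * (Q * q) := by ring
      _ ≤ D * ((m : ℝ) / q) ^ s * (2 * (Q * q - 1)) := mul_le_mul_of_nonneg_left h4 h6
      _ = 2 * D * ((m : ℝ) / q) ^ s * (Q * q - 1) := by ring
      _ ≤ 2 * D * ((m : ℝ) * (Q / (Q * q - 1))) ^ s * (Q * q - 1) := by
        apply mul_le_mul_of_nonneg_right _ hden.le
        apply mul_le_mul_of_nonneg_left h2 (by positivity)

theorem even_attained' (t : ℕ) (ht : Even t) (h6 : 6 ≤ t) :
    Attained t (((t : ℝ) + 1) / 2 - 1 / ((t : ℝ) - 2)) := by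
  obtain ⟨j, hj⟩ := ht
  obtain ⟨k, hk⟩ : ∃ k, j = k + 1 := ⟨j - 1, by omega⟩
  have h := even_attained k (by omega)
  have e1 : t = 2 * k + 2 := by omega
  rw [e1]
  convert h using 1
  push_cast
  ring

end Pool.Agent.FCE
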