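import Mathlib
import Pool.Agent.FCE.SymplGraph

namespace Pool.Agent.FCE

open Finset

/-- The orders of the subgroups used for `K_4`: `eo l = ∏ i < l, ((2 ^ (4 ^ i)) ^ 2 + 1)`. -/
def eo : ℕ → ℕ
  | 0 => 1
  | l + 1 => eo l * ((2 ^ (4 ^ l)) ^ 2 + 1)

theorem eo_pos (l : ℕ) : 0 < eo l := by
  induction l with
  | zero => norm_num [eo]
  | succ l ih => rw [eo]; positivity

theorem q_succ (l : ℕ) : 2 ^ (4 ^ (l + 1)) = (2 ^ (4 ^ l)) ^ 4 := by
  rw [← pow_mul, pow_succ]

theorem eo_dvd (l : ℕ) : eo l ∣ 2 ^ (4 ^ l) - 1 := by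
  induction l with
  | zero => norm_num [eo]
  | succ l ih =>
    rw [eo, q_succ]
    set q := 2 ^ (4 ^ l) with hq
    have h1 : 1 ≤ q := Nat.one_le_two_pow
    obtain ⟨c, hc⟩ := ih
    refine ⟨c * (q + 1), ?_⟩
    have h2 : q = eo l * c + 1 := by omega
    have h3 : q ^ 4 - 1 = (q - 1) * (q + 1) * (q ^ 2 + 1) := by
      obtain ⟨a, ha⟩ : ∃ a, q = a + 1 := ⟨q - 1, by omega⟩
      rw [ha, Nat.add_sub_cancel]
      have : (a + 1) ^ 4 = a * (a + 1 + 1) * ((a + 1) ^ 2 + 1) + 1 := by ring
      omega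
    rw [h3, hc]
    ring

theorem eo_sq (l : ℕ) : (2 ^ (4 ^ l)) ^ 2 ≤ 4 * (eo l) ^ 3 := by
  induction l with
  | zero => norm_num [eo]
  | succ l ih =>
    rw [eo, q_succ]
    set q := 2 ^ (4 ^ l) with hq
    calc (q ^ 4) ^ 2 = q ^ 2 * (q ^ 2) ^ 3 := by ring
      _ ≤ (4 * (eo l) ^ 3) * (q ^ 2 + 1) ^ 3 := by
        apply Nat.mul_le_mul ih
        apply Nat.pow_le_pow_left
        omega
      _ = 4 * (eo l * (q ^ 2 + 1)) ^ 3 := by ring

theorem eo_pow_four (l : ℕ) : (eo l) ^ 4 ≤ (2 ^ (4 ^ l)) ^ 3 := by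
  cases l with
  | zero => norm_num [eo]
  | succ l =>
    rw [eo, q_succ]
    have h := Nat.le_of_dvd (by
      have : 1 < 2 ^ (4 ^ l) := Nat.one_lt_two_pow (by positivity)
      omega) (eo_dvd l)
    set q := 2 ^ (4 ^ l) with hq
    have h1 : 1 ≤ q := Nat.one_le_two_pow
    have h2 : eo l * (q ^ 2 + 1) ≤ q ^ 3 := by
      obtain ⟨a, ha⟩ : ∃ a, q = a + 1 := ⟨q - 1, by omega⟩
      rw [ha] at h ⊢
      rw [Nat.add_sub_cancel] at h
      calc eo l * ((a + 1) ^ 2 + 1) ≤ a * ((a + 1) ^ 2 + 1) := Nat.mul_le_mul_right _ h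
        _ ≤ (a + 1) ^ 3 := by nlinarith [sq_nonneg a]
    calc (eo l * (q ^ 2 + 1)) ^ 4 ≤ (q ^ 3) ^ 4 := Nat.pow_le_pow_left h2 4
      _ = (q ^ 4) ^ 3 := by ring

/-- In characteristic two, two elements of order dividing `eo l` never sum to `1`. -/
theorem no_sum {K : Type*} [Field K] [CharP K 2] (l : ℕ) :
    ∀ u v : K, u ^ (eo l) = 1 → v ^ (eo l) = 1 → u + v ≠ 1 := by
  have h2 : (2 : K) = 0 := CharTwo.two_eq_zero
  induction l with
  | zero =>
    intro u v hu hv h
    rw [eo, pow_one] at hu hv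
    rw [hu, hv] at h
    have : (1 : K) = 0 := by linear_combination h
    exact one_ne_zero this
  | succ l ih =>
    intro u v hu hv huv
    rw [eo] at hu hv
    have hdvd := eo_dvd l
    obtain ⟨q, hq⟩ : ∃ q : ℕ, q = 2 ^ (4 ^ l) := ⟨_, rfl⟩
    rw [← hq] at hu hv hdvd
    have hq1 : 1 ≤ q := by rw [hq]; exact Nat.one_le_two_pow
    have hadd : ∀ x y : K, (x + y) ^ q = x ^ q + y ^ q := by
      intro x y
      rw [hq]
      exact add_pow_char_pow x y 2 _
    -- elements of order dividing `eo l` are fixed by the `q`-Frobenius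
    have hfix : ∀ m : K, m ^ (eo l) = 1 → m ^ q = m := by
      intro m hm
      obtain ⟨c, hc⟩ := hdvd
      have h3 : q = eo l * c + 1 := by omega
      rw [h3, pow_add, pow_mul, hm, one_pow, one_mul, pow_one]
    set m := u ^ (q ^ 2 + 1) with hm
    set n := v ^ (q ^ 2 + 1) with hn
    have hm1 : m ^ (eo l) = 1 := by rw [hm, ← pow_mul, mul_comm]; exact hu
    have hn1 : n ^ (eo l) = 1 := by rw [hn, ← pow_mul, mul_comm]; exact hv
    have hmq : m ^ q = m := hfix m hm1
    have hnq : n ^ q = n := hfix n hn1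
    set ub := (u ^ q) ^ q with hub
    set vb := (v ^ q) ^ q with hvb
    have hmu : m = u * ub := by rw [hm, hub, ← pow_mul, pow_succ, mul_comm, sq]
    have hnv : n = v * vb := by rw [hn, hvb, ← pow_mul, pow_succ, mul_comm, sq]
    have hb : ub + vb = 1 := by
      rw [hub, hvb, ← hadd, ← hadd, huv, one_pow, one_pow]
    -- the trace `u + ub` is fixed by Frobenius
    have htr : u + ub = 1 + m + n := by
      have e1 : v = 1 - u := by linear_combination huv
      have e2 : vb = 1 - ub := by linear_combination hb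
      rw [hnv, hmu, e1, e2]
      linear_combination (u + ub - 1 - u * ub) * h2
    have hpoly : u * u + (1 + m + n) * u + m = 0 := by
      rw [← htr, hmu]
      linear_combination (u * u + u * ub) * h2
    have hpoly2 : u ^ q * u ^ q + (1 + m + n) * u ^ q + m = 0 := by
      have := congrArg (fun x => x ^ q) hpoly
      simp only [hadd, mul_pow, one_pow, hmq, hnq] at this
      rw [zero_pow (by omega)] at this
      exact this
    have hfac : (u ^ q + u) * (u ^ q + ub) = 0 := by
      rw [← htr] at hpoly2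
      rw [hmu] at hpoly2
      linear_combination hpoly2
    have huq : u ^ q = u := by
      rcases mul_eq_zero.1 hfac with h | h
      · linear_combination h - u * h2
      · have h3 : u ^ q = ub := by linear_combination h - ub * h2
        rw [hub] at h3
        -- `u ^ q = (u ^ q) ^ q`, so `(u + u ^ q) ^ q = 0`
        have h4 : (u + u ^ q) ^ q = 0 := by
          rw [hadd, ← h3]
          linear_combination (u ^ q) * h2
        have h5 : u + u ^ q = 0 := by
          exact pow_eq_zero_iff (by omega : q ≠ 0) |>.1 h4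
        linear_combination h5 - u * h2
    have hubu : ub = u := by rw [hub, huq, huq]
    apply ih m n hm1 hn1
    rw [hubu] at htr
    linear_combination -htr + (u - 1) * h2

end Pool.Agent.FCE
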