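import Mathlib
import Pool.Agent.FCE.Tower

namespace Pool.Agent.FCE

open Finset

theorem card_pow_eq_one {K : Type*} [Field K] [Fintype K] [DecidableEq K] (e : ℕ) (he : 0 < e)
    (hdvd : e ∣ Fintype.card K - 1) : (univ.filter (fun x : K => x ^ e = 1)).card = e := by
  classical
  apply le_antisymm
  · have h1 : univ.filter (fun x : K => x ^ e = 1) ⊆ (Polynomial.nthRoots e (1 : K)).toFinset := by
      intro x hx
      rw [Multiset.mem_toFinset, Polynomial.mem_nthRoots he]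
      exact (mem_filter.1 hx).2
    refine (card_le_card h1).trans ?_
    exact (Multiset.toFinset_card_le _).trans (Polynomial.card_nthRoots e 1)
  · have h1 : Nat.card (powMonoidHom e : Kˣ →* Kˣ).ker = e := by
      rw [IsCyclic.card_powMonoidHom_ker, Nat.card_eq_fintype_card, Fintype.card_units]
      exact Nat.gcd_eq_right hdvd
    have h2 : Nat.card (powMonoidHom e : Kˣ →* Kˣ).ker
        ≤ Nat.card {x : K // x ∈ univ.filter (fun x : K => x ^ e = 1)} := by
      apply Nat.card_le_card_of_injective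
        (fun g : (powMonoidHom e : Kˣ →* Kˣ).ker =>
          (⟨((g : Kˣ) : K), by
            have hg : (g : Kˣ) ^ e = 1 := g.2
            rw [mem_filter]
            refine ⟨mem_univ _, ?_⟩
            rw [← Units.val_pow_eq_pow_val, hg, Units.val_one]⟩ :
            {x : K // x ∈ univ.filter (fun x : K => x ^ e = 1)}))
      intro a b hab
      have := congrArg (fun z => z.1) hab
      exact Subtype.ext (Units.ext this)
    rw [h1, Nat.card_eq_fintype_card, Fintype.card_coe] at h2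
    exact h2

theorem four_cliqueFree {K : Type} [Field K] [Fintype K] [DecidableEq K] [CharP K 2] (l : ℕ)
    (hsymm : ∀ u v : SV K 1, sv u v ∈ univ.filter (fun x : K => x ^ (eo l) = 1) →
      sv v u ∈ univ.filter (fun x : K => x ^ (eo l) = 1))
    (hirr : ∀ u : SV K 1, sv u u ∉ univ.filter (fun x : K => x ^ (eo l) = 1)) :
    (relGraph sv (univ.filter (fun x : K => x ^ (eo l) = 1)) hsymm hirr).CliqueFree 4 := by
  by_contra hcl
  have f := SimpleGraph.topEmbeddingOfNotCliqueFree hcl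
  have hadj : ∀ i j : Fin 4, i ≠ j → (sv (f i) (f j)) ^ (eo l) = 1 := by
    intro i j hij
    have h : (relGraph sv (univ.filter (fun x : K => x ^ (eo l) = 1)) hsymm hirr).Adj
        (f i) (f j) := by
      rw [f.map_adj_iff]
      exact hij
    exact (mem_filter.1 h).2
  have h01 := hadj 0 1 (by decide)
  have h23 := hadj 2 3 (by decide)
  have h02 := hadj 0 2 (by decide)
  have h13 := hadj 1 3 (by decide)
  have h03 := hadj 0 3 (by decide)
  have h12 := hadj 1 2 (by decide)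
  have hpl : sv (f 0) (f 1) * sv (f 2) (f 3) - sv (f 0) (f 2) * sv (f 1) (f 3)
      + sv (f 0) (f 3) * sv (f 1) (f 2) = 0 := by
    unfold sv sx
    simp only [Fin.sum_univ_one]
    ring
  set a := sv (f 0) (f 1) * sv (f 2) (f 3) with ha
  set b := sv (f 0) (f 2) * sv (f 1) (f 3) with hb
  set c := sv (f 0) (f 3) * sv (f 1) (f 2) with hc
  have ha1 : a ^ (eo l) = 1 := by rw [ha, mul_pow, h01, h23, one_mul]
  have hb1 : b ^ (eo l) = 1 := by rw [hb, mul_pow, h02, h13, one_mul]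
  have hc1 : c ^ (eo l) = 1 := by rw [hc, mul_pow, h03, h12, one_mul]
  have hb0 : b ≠ 0 := by
    intro h
    rw [h, zero_pow (eo_pos l).ne'] at hb1
    exact zero_ne_one hb1
  apply no_sum l (a / b) (c / b)
  · rw [div_pow, ha1, hb1, div_one]
  · rw [div_pow, hc1, hb1, div_one]
  · rw [← add_div, div_eq_one_iff_eq hb0]
    linear_combination hpl

theorem rpow_five_half {x : ℝ} (hx : 0 < x) : x ^ ((5 : ℝ) / 2) = x ^ 2 * Real.sqrt x := by
  rw [show (5 : ℝ) / 2 = 2 + 1 / 2 by norm_num, Real.rpow_add hx, Real.rpow_two,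
    Real.sqrt_eq_rpow]

theorem four_attained : Attained 4 (5 / 2) := by
  classical
  apply attained_of (C := 4) (by norm_num)
  intro ε hε n₀
  obtain ⟨N1, hN1⟩ := exists_nat_gt (16 / ε ^ 4)
  obtain ⟨l, hl⟩ : ∃ l : ℕ, n₀ + N1 + 2 ≤ 2 ^ (4 ^ l) := by
    refine ⟨n₀ + N1 + 2, ?_⟩
    have h1 : n₀ + N1 + 2 < 4 ^ (n₀ + N1 + 2) := Nat.lt_pow_self (by norm_num)
    have h2 : 4 ^ (n₀ + N1 + 2) < 2 ^ (4 ^ (n₀ + N1 + 2)) := Nat.lt_pow_self (by norm_num)
    omega
  have hfact : Fact (Nat.Prime 2) := ⟨Nat.prime_two⟩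
  let K := GaloisField 2 (4 ^ l)
  have : Fintype K := Fintype.ofFinite K
  have hK : Fintype.card K = 2 ^ (4 ^ l) := by
    rw [← Nat.card_eq_fintype_card]
    exact GaloisField.card 2 (4 ^ l) (by positivity)
  obtain ⟨R, hR⟩ : ∃ R : ℕ, R = 2 ^ (4 ^ l) := ⟨_, rfl⟩
  have hdvd := eo_dvd l
  have hsq := eo_sq l
  have hp4 := eo_pow_four l
  have hpos := eo_pos l
  rw [← hR] at hdvd hsq hp4 hl hK
  set S : Finset K := univ.filter (fun x : K => x ^ (eo l) = 1) with hS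
  have hScard : S.card = eo l := card_pow_eq_one (eo l) hpos (by rw [hK]; exact hdvd)
  set m := eo l with hm
  have hmR : m ≤ R - 1 := Nat.le_of_dvd (by omega) hdvd
  have h0S : (0 : K) ∉ S := by
    intro h
    have := (mem_filter.1 h).2
    rw [zero_pow hpos.ne'] at this
    exact zero_ne_one this
  have h2K : (2 : K) = 0 := CharTwo.two_eq_zero
  have hsymm : ∀ u v : SV K 1, sv u v ∈ S → sv v u ∈ S := by
    intro u v h
    have h1 : sv v u = sv u v := by
      have e1 : sv v u = -sv u v := sx_antisymm u.1 v.1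
      rw [e1]
      linear_combination -(sv u v) * h2K
    rw [h1]
    exact h
  have hirr : ∀ u : SV K 1, sv u u ∉ S := by
    intro u
    have : sv u u = 0 := sx_self u.1
    rw [this]
    exact h0S
  have hJ := sv_jumbled (K := K) (k := 1) le_rfl S hsymm hirr h0S
  have hcardV := card_SV K 1
  rw [hK] at hcardV
  have hn : Fintype.card (SV K 1) = R ^ 2 - 1 := by
    have : 2 * 1 = 2 := rfl
    rw [this] at hcardV
    omega
  have hR2 : 2 ≤ R := by omega
  have hRR : (2 : ℝ) ≤ R := by exact_mod_cast hR2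
  have hnR : (Fintype.card (SV K 1) : ℝ) = (R : ℝ) ^ 2 - 1 := by
    have h1 : (Fintype.card (SV K 1) : ℝ) + 1 = (R : ℝ) ^ 2 := by exact_mod_cast hcardV
    linarith
  have hpow1 : (Fintype.card K : ℝ) ^ (2 * 1 - 1) = R := by
    rw [hK]
    norm_num
  rw [hpow1, hScard, hnR] at hJ
  have hm1 : (1 : ℝ) ≤ m := by exact_mod_cast hpos
  have hmR' : (m : ℝ) ≤ R - 1 := by
    have : m + 1 ≤ R := by omega
    have : (m : ℝ) + 1 ≤ R := by exact_mod_cast this
    linarith
  have hden : (0 : ℝ) < (R : ℝ) ^ 2 - 1 := by nlinarith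
  have hR0 : (0 : ℝ) < R := by linarith
  have hPle : (m : ℝ) * (R / ((R : ℝ) ^ 2 - 1)) ≤ 2 * m / R := by
    rw [← mul_div_assoc, div_le_div_iff₀ hden hR0]
    nlinarith
  have hPge : (m : ℝ) / R ≤ (m : ℝ) * (R / ((R : ℝ) ^ 2 - 1)) := by
    rw [← mul_div_assoc, div_le_div_iff₀ hR0 hden]
    nlinarith
  refine ⟨R ^ 2 - 1, (m : ℝ) * (R / ((R : ℝ) ^ 2 - 1)), ?_, by positivity, ?_, ?_, SV K 1,
    inferInstance, relGraph sv S hsymm hirr, (m : ℝ) * Real.sqrt R, hn,
    four_cliqueFree l hsymm hirr, by positivity, ?_, hJ⟩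
  · have : R ≤ R ^ 2 := Nat.le_self_pow (by norm_num) R
    omega
  · rw [← mul_div_assoc, div_le_one hden]
    nlinarith
  · refine lt_of_le_of_lt hPle ?_
    have h1 : (2 * (m : ℝ) / R) ^ 4 < ε ^ 4 := by
      have e1 : (m : ℝ) ^ 4 ≤ (R : ℝ) ^ 3 := by exact_mod_cast hp4
      have e2 : 16 / ε ^ 4 < R := by
        refine lt_of_lt_of_le hN1 ?_
        have : N1 ≤ R := by omega
        exact_mod_cast this
      rw [div_lt_iff₀ (by positivity)] at e2
      rw [div_pow, div_lt_iff₀ (by positivity)]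
      have e3 : (0 : ℝ) < (R : ℝ) ^ 3 := by positivity
      calc (2 * (m : ℝ)) ^ 4 = 16 * (m : ℝ) ^ 4 := by ring
        _ ≤ 16 * (R : ℝ) ^ 3 := by linarith
        _ < (R * ε ^ 4) * (R : ℝ) ^ 3 := mul_lt_mul_of_pos_right e2 e3
        _ = ε ^ 4 * (R : ℝ) ^ 4 := by ring
    exact lt_of_pow_lt_pow_left₀ 4 hε.le h1
  · have hx : (0 : ℝ) < (m : ℝ) / R := by positivity
    have h1 : ((m : ℝ) / R) ^ ((5 : ℝ) / 2)
        ≤ ((m : ℝ) * (R / ((R : ℝ) ^ 2 - 1))) ^ ((5 : ℝ) / 2) :=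
      Real.rpow_le_rpow hx.le hPge (by norm_num)
    rw [rpow_five_half hx, Real.sqrt_div (by positivity)] at h1
    have hcast : (((R ^ 2 - 1 : ℕ)) : ℝ) = (R : ℝ) ^ 2 - 1 := by
      rw [← hn]
      exact hnR
    rw [hcast]
    set sm := Real.sqrt (m : ℝ) with hsm
    set sR := Real.sqrt (R : ℝ) with hsR
    have hsm2 : sm ^ 2 = m := Real.sq_sqrt (by positivity)
    have hsR2 : sR ^ 2 = R := Real.sq_sqrt (by positivity)
    have hsR0 : 0 < sR := Real.sqrt_pos.2 hR0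
    have hsm0 : 0 < sm := Real.sqrt_pos.2 (by positivity)
    have hsqR : (R : ℝ) ^ 2 ≤ 4 * (m : ℝ) ^ 3 := by exact_mod_cast hsq
    have h2 : (R : ℝ) ≤ 2 * m * sm := by
      apply le_of_sq_le_sq _ (by positivity)
      calc (R : ℝ) ^ 2 ≤ 4 * (m : ℝ) ^ 3 := hsqR
        _ = (2 * m) ^ 2 * (sm ^ 2) := by rw [hsm2]; ring
        _ = (2 * m * sm) ^ 2 := by ring
    have h3 : (m : ℝ) * sR ≤ 2 * (((m : ℝ) / R) ^ 2 * (sm / sR)) * (R : ℝ) ^ 2 := by
      have e1 : 2 * (((m : ℝ) / R) ^ 2 * (sm / sR)) * (R : ℝ) ^ 2 = (m : ℝ) * (2 * m * sm) / sR := by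
        field_simp
      rw [e1, le_div_iff₀ hsR0]
      calc (m : ℝ) * sR * sR = m * (sR ^ 2) := by ring
        _ = m * R := by rw [hsR2]
        _ ≤ m * (2 * m * sm) := by
          apply mul_le_mul_of_nonneg_left h2 (by positivity)
    have h4 : (R : ℝ) ^ 2 ≤ 2 * ((R : ℝ) ^ 2 - 1) := by nlinarith
    have h5 : 0 ≤ ((m : ℝ) / R) ^ 2 * (sm / sR) := by positivity
    calc (m : ℝ) * sR ≤ 2 * (((m : ℝ) / R) ^ 2 * (sm / sR)) * (R : ℝ) ^ 2 := h3
      _ ≤ 2 * (((m : ℝ) / R) ^ 2 * (sm / sR)) * (2 * ((R : ℝ) ^ 2 - 1)) := by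
        apply mul_le_mul_of_nonneg_left h4 (by positivity)
      _ = 4 * (((m : ℝ) / R) ^ 2 * (sm / sR)) * ((R : ℝ) ^ 2 - 1) := by ring
      _ ≤ 4 * ((m : ℝ) * (R / ((R : ℝ) ^ 2 - 1))) ^ ((5 : ℝ) / 2) * ((R : ℝ) ^ 2 - 1) := by
        apply mul_le_mul_of_nonneg_right _ hden.le
        linarith

end Pool.Agent.FCE
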