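import Pool.Agent.FCE.Defs

/-!
A definition for the question on `K_t`-free jumbled graphs (MP_fce80c_co).
-/

namespace Pool.Agent.FCE

/-- Optimally jumbled `K_t`-free graphs of density at least `c n ^ (-1 / t)`, attaining the
exponent `s`: there are constants `C, c > 0`, an infinite set `N` of natural numbers and a
function `p` with `p n → 0`, such that for every `n ∈ N` one has `c n ^ (-1 / t) ≤ p n ≤ 1` and
there is a `K_t`-free graph on `n` vertices which is `(p n, β)`-jumbled for some `β > 0` with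
`β ≤ C √(p n * n)` and `β ≤ C (p n) ^ s n`. -/
def OptimallyAttained (t : ℕ) (s : ℝ) : Prop :=
  ∃ C : ℝ, 0 < C ∧ ∃ c : ℝ, 0 < c ∧ ∃ N : Set ℕ, N.Infinite ∧ ∃ p : ℕ → ℝ,
    Filter.Tendsto p Filter.atTop (nhds 0) ∧
    ∀ n ∈ N, 0 < p n ∧ p n ≤ 1 ∧ c * (n : ℝ) ^ (-(1 / (t : ℝ))) ≤ p n ∧
      ∃ (V : Type) (_ : Fintype V) (G : SimpleGraph V) (β : ℝ),
        Fintype.card V = n ∧ G.CliqueFree t ∧ 0 < β ∧ β ≤ C * Real.sqrt (p n * (n : ℝ)) ∧
        β ≤ C * (p n) ^ s * (n : ℝ) ∧ Jumbled G (p n) β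

end Pool.Agent.FCE
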