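import Pool.Agent.FCE.OptDefs
import Pool.Agent.OPG.Mg_MP_fce80c_co.G007

set_option autoImplicit false

namespace Pool.Agent.FCE

open Finset

theorem infinite_family (P : ℕ → ℝ → Prop)
    (h : ∀ (ε : ℝ), 0 < ε → ∀ n₀ : ℕ, ∃ (n : ℕ) (p : ℝ), n₀ ≤ n ∧ 0 < p ∧ p < ε ∧ P n p) :
    ∃ N : Set ℕ, N.Infinite ∧ ∃ p : ℕ → ℝ, Filter.Tendsto p Filter.atTop (nhds 0) ∧
      ∀ n ∈ N, 0 < p n ∧ P n (p n) := by
  classical
  have h' : ∀ k : ℕ, ∃ (n : ℕ) (p : ℝ), k ≤ n ∧ 0 < p ∧ p < 1 / ((k : ℝ) + 1) ∧ P n p := by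
    intro k
    exact h _ (by positivity) k
  choose n p hn hp0 hpk hG using h'
  refine ⟨Set.range n, ?_, fun m => if hm : ∃ k, n k = m then p hm.choose else 0, ?_, ?_⟩
  · rw [Set.infinite_iff_exists_gt]
    intro a
    exact ⟨n (a + 1), ⟨a + 1, rfl⟩, lt_of_lt_of_le (Nat.lt_succ_self a) (hn (a + 1))⟩
  · rw [Metric.tendsto_atTop]
    intro ε hε
    obtain ⟨K, hK⟩ := exists_nat_one_div_lt hε
    refine ⟨(∑ k ∈ range K, n k) + 1, ?_⟩
    intro m hm
    by_cases hm' : ∃ k, n k = m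
    · rw [dif_pos hm']
      set k := hm'.choose with hk
      have hkm : n k = m := hm'.choose_spec
      have hKk : K ≤ k := by
        by_contra hlt
        push Not at hlt
        have h1 : n k ≤ ∑ k ∈ range K, n k :=
          single_le_sum (f := fun k => n k) (fun i _ => Nat.zero_le _) (mem_range.2 hlt)
        omega
      rw [Real.dist_eq, sub_zero, abs_of_pos (hp0 k)]
      have h2 : (1 : ℝ) / ((k : ℝ) + 1) ≤ 1 / ((K : ℝ) + 1) := by
        apply one_div_le_one_div_of_le (by positivity)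
        have : (K : ℝ) ≤ k := by exact_mod_cast hKk
        linarith
      linarith [hpk k]
    · rw [dif_neg hm']
      simpa using hε
  · rintro m ⟨k0, hk0⟩
    have hm' : ∃ k, n k = m := ⟨k0, hk0⟩
    beta_reduce
    rw [dif_pos hm']
    set k := hm'.choose with hk
    have hkm : n k = m := hm'.choose_spec
    refine ⟨hp0 k, ?_⟩
    have := hG k
    rw [hkm] at this
    exact this

open Classical in
/-- From `(n, d, λ)`-graphs to the jumbled form. -/
theorem optimally_of (t : ℕ) (ht : 1 ≤ t) (C c : ℝ) (hC : 0 < C) (hc : 0 < c)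
    (h : ∀ N : ℕ, ∃ n : ℕ, N ≤ n ∧ ∃ G : SimpleGraph (Fin n), ∃ d : ℕ,
      G.IsRegularOfDegree d ∧ G.CliqueFree t ∧
      c * (n : ℝ) ^ ((1 : ℝ) - 1 / (t : ℝ)) ≤ (d : ℝ) ∧
      (d : ℝ) ≤ (n : ℝ) ^ ((1 : ℝ) - 1 / (t : ℝ)) ∧
      ∀ x : Fin n → ℝ, (∑ i, x i) = 0 →
        |∑ i, ∑ j, (if G.Adj i j then x i * x j else 0)|
          ≤ C * Real.sqrt (d : ℝ) * ∑ i, x i ^ 2) :
    OptimallyAttained t (((t : ℝ) + 1) / 2) := by
  have ht0 : (0 : ℝ) < t := by exact_mod_cast ht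
  set C' : ℝ := C * (c⁻¹) ^ ((t : ℝ) / 2) with hC'
  have hC'0 : 0 < C' := by positivity
  set C'' : ℝ := max C C' with hC''
  obtain ⟨N, hN, p, hp, hall⟩ := infinite_family
    (fun n p => p ≤ 1 ∧ c * (n : ℝ) ^ (-(1 / (t : ℝ))) ≤ p ∧
      ∃ (V : Type) (_ : Fintype V) (G : SimpleGraph V) (β : ℝ),
        Fintype.card V = n ∧ G.CliqueFree t ∧ 0 < β ∧ β ≤ C'' * Real.sqrt (p * (n : ℝ)) ∧
        β ≤ C'' * p ^ (((t : ℝ) + 1) / 2) * (n : ℝ) ∧ Jumbled G p β) (by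
    intro ε hε n₀
    -- choose a large starting point
    obtain ⟨n₁, hn₁⟩ := exists_nat_gt ((ε⁻¹) ^ (t : ℝ))
    obtain ⟨n, hn, G, d, hreg, hfree, hlow, hup, hspec⟩ := h (n₀ + n₁ + 1)
    have hnpos : 0 < n := by omega
    have hnR : (0 : ℝ) < n := by exact_mod_cast hnpos
    have hdiv : ∀ y : ℝ, y * (n : ℝ) ^ ((1 : ℝ) - 1 / (t : ℝ)) / n
        = y * (n : ℝ) ^ (-(1 / (t : ℝ))) := by
      intro y
      rw [sub_eq_add_neg, Real.rpow_add hnR, Real.rpow_one]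
      field_simp
    have hlow' : c * (n : ℝ) ^ (-(1 / (t : ℝ))) ≤ (d : ℝ) / n := by
      rw [← hdiv]
      exact div_le_div_of_nonneg_right hlow hnR.le
    have hup' : (d : ℝ) / n ≤ (n : ℝ) ^ (-(1 / (t : ℝ))) := by
      have := hdiv 1
      rw [one_mul, one_mul] at this
      rw [← this]
      exact div_le_div_of_nonneg_right hup hnR.le
    have hp0 : 0 < (d : ℝ) / n := lt_of_lt_of_le (by positivity) hlow'
    have hd0 : (0 : ℝ) < d := by
      by_contra hcon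
      push Not at hcon
      have : (d : ℝ) / n ≤ 0 := div_nonpos_of_nonpos_of_nonneg hcon hnR.le
      linarith
    have hn1 : (1 : ℝ) ≤ n := by exact_mod_cast hnpos
    have hple : (d : ℝ) / n ≤ 1 := by
      refine hup'.trans ?_
      apply Real.rpow_le_one_of_one_le_of_nonpos hn1
      rw [neg_nonpos]
      positivity
    have hpε : (d : ℝ) / n < ε := by
      refine lt_of_le_of_lt hup' ?_
      have h1 : (ε⁻¹) ^ (t : ℝ) < n := by
        refine hn₁.trans_le ?_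
        exact_mod_cast (by omega : n₁ ≤ n)
      have h2 : ε⁻¹ < (n : ℝ) ^ (1 / (t : ℝ)) := by
        have h3 := Real.rpow_lt_rpow (by positivity) h1 (by positivity : 0 < 1 / (t : ℝ))
        rw [← Real.rpow_mul (by positivity), mul_one_div_cancel ht0.ne', Real.rpow_one] at h3
        exact h3
      rw [Real.rpow_neg hnR.le]
      rw [inv_lt_comm₀ (by positivity) hε]
      exact h2
    have hpn : (d : ℝ) / n * n = d := by field_simp
    refine ⟨n, (d : ℝ) / n, by omega, hp0, hpε, hple, hlow', Fin n, inferInstance, G,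
      C * Real.sqrt (d : ℝ), Fintype.card_fin n, hfree, by positivity, ?_, ?_, ?_⟩
    · rw [hpn]
      exact mul_le_mul_of_nonneg_right (le_max_left _ _) (Real.sqrt_nonneg _)
    · set p := (d : ℝ) / n with hp
      -- `n ^ (1/2) ≥ (c / p) ^ (t / 2)`
      have h1 : c * p⁻¹ ≤ (n : ℝ) ^ (1 / (t : ℝ)) := by
        rw [Real.rpow_neg hnR.le] at hlow'
        have h2 : 0 < (n : ℝ) ^ (1 / (t : ℝ)) := by positivity
        rw [← div_eq_mul_inv, div_le_iff₀ hp0]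
        rw [← div_eq_mul_inv, div_le_iff₀ h2] at hlow'
        linarith
      have h2 : (c * p⁻¹) ^ ((t : ℝ) / 2) ≤ (n : ℝ) ^ ((1 : ℝ) / 2) := by
        have h3 := Real.rpow_le_rpow (by positivity) h1 (by positivity : 0 ≤ (t : ℝ) / 2)
        rw [← Real.rpow_mul hnR.le] at h3
        have h4 : 1 / (t : ℝ) * ((t : ℝ) / 2) = 1 / 2 := by field_simp
        rw [h4] at h3
        exact h3
      have h3 : Real.sqrt (d : ℝ) * (c * p⁻¹) ^ ((t : ℝ) / 2) ≤ p ^ ((1 : ℝ) / 2) * n := by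
        have h4 : Real.sqrt (d : ℝ) = p ^ ((1 : ℝ) / 2) * (n : ℝ) ^ ((1 : ℝ) / 2) := by
          rw [← Real.mul_rpow hp0.le hnR.le, hpn, Real.sqrt_eq_rpow]
        rw [h4]
        have h5 : (n : ℝ) ^ ((1 : ℝ) / 2) * (n : ℝ) ^ ((1 : ℝ) / 2) = n := by
          rw [← Real.rpow_add hnR]
          norm_num
        calc p ^ ((1 : ℝ) / 2) * (n : ℝ) ^ ((1 : ℝ) / 2) * (c * p⁻¹) ^ ((t : ℝ) / 2)
            ≤ p ^ ((1 : ℝ) / 2) * (n : ℝ) ^ ((1 : ℝ) / 2) * (n : ℝ) ^ ((1 : ℝ) / 2) :=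
              mul_le_mul_of_nonneg_left h2 (by positivity)
          _ = _ := by rw [mul_assoc, h5]
      have h4 : Real.sqrt (d : ℝ)
          ≤ (c⁻¹) ^ ((t : ℝ) / 2) * p ^ (((t : ℝ) + 1) / 2) * n := by
        have h5 : (c * p⁻¹) ^ ((t : ℝ) / 2) * ((c⁻¹) ^ ((t : ℝ) / 2) * p ^ ((t : ℝ) / 2)) = 1 := by
          rw [← Real.mul_rpow (by positivity) hp0.le, ← Real.mul_rpow (by positivity) (by positivity)]
          have : c * p⁻¹ * (c⁻¹ * p) = 1 := by field_simp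
          rw [this, Real.one_rpow]
        have h6 : p ^ (((t : ℝ) + 1) / 2) = p ^ ((1 : ℝ) / 2) * p ^ ((t : ℝ) / 2) := by
          rw [← Real.rpow_add hp0]
          congr 1
          ring
        calc Real.sqrt (d : ℝ) = Real.sqrt (d : ℝ) * ((c * p⁻¹) ^ ((t : ℝ) / 2)
              * ((c⁻¹) ^ ((t : ℝ) / 2) * p ^ ((t : ℝ) / 2))) := by rw [h5, mul_one]
          _ = (Real.sqrt (d : ℝ) * (c * p⁻¹) ^ ((t : ℝ) / 2))
              * ((c⁻¹) ^ ((t : ℝ) / 2) * p ^ ((t : ℝ) / 2)) := by ring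
          _ ≤ (p ^ ((1 : ℝ) / 2) * n) * ((c⁻¹) ^ ((t : ℝ) / 2) * p ^ ((t : ℝ) / 2)) :=
              mul_le_mul_of_nonneg_right h3 (by positivity)
          _ = _ := by rw [h6]; ring
      calc C * Real.sqrt (d : ℝ)
          ≤ C * ((c⁻¹) ^ ((t : ℝ) / 2) * p ^ (((t : ℝ) + 1) / 2) * n) :=
            mul_le_mul_of_nonneg_left h4 hC.le
        _ = C' * (p ^ (((t : ℝ) + 1) / 2) * n) := by rw [hC']; ring
        _ ≤ C'' * (p ^ (((t : ℝ) + 1) / 2) * n) :=
            mul_le_mul_of_nonneg_right (le_max_right _ _) (by positivity)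
        _ = _ := by ring
    · have := OPG.jumbled_of_spectral G d hreg (by rw [Fintype.card_fin]; exact hnpos)
        (C * Real.sqrt (d : ℝ)) (by positivity) (by
          intro x hx
          exact hspec x hx)
      rw [Fintype.card_fin] at this
      exact this)
  refine ⟨C'', lt_of_lt_of_le hC (le_max_left _ _), c, hc, N, hN, p, hp, ?_⟩
  intro n hn
  obtain ⟨h1, h2, h3, h4⟩ := hall n hn
  exact ⟨h1, h2, h3, h4⟩

end Pool.Agent.FCE
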